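import Pool.Agent.H1.ZZ.Height

/-! The Zhang-Zagier height of an algebraic number. -/

open Polynomial

namespace H38.ZZ

/-- The minimal polynomial of `α` over `ℤ`: the primitive part of the minimal polynomial over `ℚ`
(cleared of denominators); it is determined up to sign. -/
noncomputable def intMinpoly (α : ℂ) : ℤ[X] :=
  (IsLocalization.integerNormalization (nonZeroDivisors ℤ) (minpoly ℚ α)).primPart

/-- The Weil height of `α`: `log M(α) / d`, with `M` the Mahler measure of the minimal polynomial
over `ℤ` and `d` its degree. -/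
noncomputable def weil (α : ℂ) : ℝ :=
  Real.log ((intMinpoly α).map (Int.castRingHom ℂ)).mahlerMeasure / (intMinpoly α).natDegree

/-- The Zhang-Zagier height `H(α) = h(α) + h(1 - α)`. -/
noncomputable def zzHeight (α : ℂ) : ℝ := weil α + weil (1 - α)

theorem intMinpoly_map {α : ℂ} (hα : IsAlgebraic ℚ α) :
    Associated ((intMinpoly α).map (Int.castRingHom ℚ)) (minpoly ℚ α) := by
  have h0 : minpoly ℚ α ≠ 0 := minpoly.ne_zero hα.isIntegral
  obtain ⟨b, hb0, hb⟩ := IsLocalization.integerNormalization_spec (nonZeroDivisors ℤ)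
    (minpoly ℚ α)
  set q := IsLocalization.integerNormalization (nonZeroDivisors ℤ) (minpoly ℚ α) with hq
  have hbne : (b : ℚ) ≠ 0 := by
    have := nonZeroDivisors.ne_zero hb0
    exact_mod_cast this
  have e0 : q.map (Int.castRingHom ℚ) = C (b : ℚ) * minpoly ℚ α := by
    have h1 : q.map (Int.castRingHom ℚ) = b • minpoly ℚ α := hb
    rw [h1, zsmul_eq_mul]
    congr 1
  have hqne : q ≠ 0 := by
    intro h
    rw [h, Polynomial.map_zero] at e0
    exact mul_ne_zero (C_ne_zero.2 hbne) h0 e0.symm
  have hc : (q.content : ℚ) ≠ 0 := by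
    have : q.content ≠ 0 := by
      rw [Ne, content_eq_zero_iff]
      exact hqne
    exact_mod_cast this
  have e1 : q.map (Int.castRingHom ℚ) = C (q.content : ℚ) * (intMinpoly α).map
      (Int.castRingHom ℚ) := by
    conv_lhs => rw [q.eq_C_content_mul_primPart]
    rw [Polynomial.map_mul, map_C]
    rfl
  have h2 : Associated (q.map (Int.castRingHom ℚ)) (minpoly ℚ α) := by
    rw [e0]
    exact (associated_isUnit_mul_left_iff (isUnit_C.2 hbne.isUnit)).2 (Associated.refl _)
  have h3 : Associated (q.map (Int.castRingHom ℚ)) ((intMinpoly α).map (Int.castRingHom ℚ)) := by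
    rw [e1]
    exact (associated_isUnit_mul_left_iff (isUnit_C.2 hc.isUnit)).2 (Associated.refl _)
  exact h3.symm.trans h2

theorem intMinpoly_irreducible {α : ℂ} (hα : IsAlgebraic ℚ α) : Irreducible (intMinpoly α) := by
  have h1 : (intMinpoly α).IsPrimitive := isPrimitive_primPart _
  rw [IsPrimitive.Int.irreducible_iff_irreducible_map_cast h1]
  exact (intMinpoly_map hα).symm.irreducible (minpoly.irreducible hα.isIntegral)

theorem aeval_map_rat (α : ℂ) (p : ℤ[X]) : aeval α (p.map (Int.castRingHom ℚ)) = aeval α p := by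
  have : (Int.castRingHom ℚ) = algebraMap ℤ ℚ := rfl
  rw [this, aeval_map_algebraMap]

theorem intMinpoly_aeval {α : ℂ} (hα : IsAlgebraic ℚ α) : aeval α (intMinpoly α) = 0 := by
  obtain ⟨c, hc⟩ := (intMinpoly_map hα).symm.dvd
  rw [← aeval_map_rat, hc, map_mul, minpoly.aeval, zero_mul]

theorem natDegree_assoc {p q : ℚ[X]} (h : Associated p q) :
    p.natDegree = q.natDegree :=
  natDegree_eq_of_degree_eq (degree_eq_degree_of_associated h)

theorem intMinpoly_natDegree {α : ℂ} (hα : IsAlgebraic ℚ α) :
    (intMinpoly α).natDegree = (minpoly ℚ α).natDegree := by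
  have h1 := natDegree_assoc (intMinpoly_map hα)
  rwa [natDegree_map_eq_of_injective (RingHom.injective_int _)] at h1

theorem intMinpoly_pos {α : ℂ} (hα : IsAlgebraic ℚ α) : 0 < (intMinpoly α).natDegree := by
  rw [intMinpoly_natDegree hα]
  exact minpoly.natDegree_pos hα.isIntegral

/-- An irreducible integer polynomial of positive degree that vanishes at `α` is the minimal
polynomial up to sign. -/
theorem intMinpoly_unique {α : ℂ} {p : ℤ[X]} (hp : Irreducible p) (h0 : 0 < p.natDegree)
    (h : aeval α p = 0) : Associated p (intMinpoly α) := by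
  have hpne : p ≠ 0 := hp.ne_zero
  have hα : IsAlgebraic ℚ α := by
    refine ⟨p.map (Int.castRingHom ℚ), ?_, ?_⟩
    · rw [Polynomial.map_ne_zero_iff (RingHom.injective_int _)]
      exact hpne
    · rw [aeval_map_rat, h]
  have hprim : p.IsPrimitive := hp.isPrimitive h0.ne'
  have h1 : Irreducible (p.map (Int.castRingHom ℚ)) :=
    (IsPrimitive.Int.irreducible_iff_irreducible_map_cast hprim).1 hp
  have h2 : minpoly ℚ α ∣ p.map (Int.castRingHom ℚ) :=
    minpoly.dvd ℚ α (by rw [aeval_map_rat, h])
  have h3 : Associated (minpoly ℚ α) (p.map (Int.castRingHom ℚ)) :=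
    (minpoly.irreducible hα.isIntegral).associated_of_dvd h1 h2
  have h4 := (intMinpoly_map hα).trans h3
  have h5 : intMinpoly α ∣ p :=
    (IsPrimitive.Int.dvd_iff_map_cast_dvd_map_cast _ _ (isPrimitive_primPart _)).2 h4.dvd
  exact ((intMinpoly_irreducible hα).associated_of_dvd hp h5).symm

theorem mahler_assoc {p q : ℤ[X]} (h : Associated p q) :
    (p.map (Int.castRingHom ℂ)).mahlerMeasure = (q.map (Int.castRingHom ℂ)).mahlerMeasure := by
  obtain ⟨u, hu⟩ := h
  obtain ⟨c, hc, hcu⟩ := isUnit_iff.1 u.isUnit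
  rw [← hu, Polynomial.map_mul, mahlerMeasure_mul, ← hcu, map_C, mahlerMeasure_const]
  rcases Int.isUnit_iff.1 hc with h | h <;> rw [h] <;> simp

theorem degree_assoc {p q : ℤ[X]} (h : Associated p q) : p.natDegree = q.natDegree :=
  natDegree_eq_of_degree_eq (degree_eq_degree_of_associated h)

theorem isAlgebraic_one_sub {α : ℂ} (hα : IsAlgebraic ℚ α) : IsAlgebraic ℚ (1 - α) :=
  isAlgebraic_one.sub hα

theorem natDegree_comp_one_sub (p : ℤ[X]) : (p.comp (1 - X)).natDegree = p.natDegree := by
  rw [natDegree_comp]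
  have : (1 - X : ℤ[X]).natDegree = 1 := by
    rw [show (1 - X : ℤ[X]) = -(X - C 1) by simp]
    rw [natDegree_neg, natDegree_X_sub_C]
  rw [this, mul_one]

theorem irreducible_comp {p : ℤ[X]} (hp : Irreducible p) : Irreducible (p.comp (1 - X)) := by
  let e : ℤ[X] ≃+* ℤ[X] := RingEquiv.ofRingHom (compRingHom (1 - X)) (compRingHom (1 - X))
    (by
      ext <;> simp) (by ext <;> simp)
  have : p.comp (1 - X) = e p := rfl
  rw [this]
  exact (MulEquiv.irreducible_iff e).2 hp

/-- The height of the roots of an irreducible polynomial. -/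
theorem zzHeight_eq {α : ℂ} {p : ℤ[X]} (hp : Irreducible p) (h0 : 0 < p.natDegree)
    (h : aeval α p = 0) : zzHeight α = Pool.H1.ZZ.height p := by
  have h1 := intMinpoly_unique hp h0 h
  have h2 : aeval (1 - α) (p.comp (1 - X)) = 0 := by
    rw [aeval_comp]
    simpa using h
  have h3 := intMinpoly_unique (irreducible_comp hp)
    (by rw [natDegree_comp_one_sub]; exact h0) h2
  unfold zzHeight weil Pool.H1.ZZ.height
  rw [← mahler_assoc h1, ← mahler_assoc h3, ← degree_assoc h1, ← degree_assoc h3,
    natDegree_comp_one_sub, add_div]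

end H38.ZZ
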