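import Pool.Agent.H38.ZZ.Prod
import Pool.Agent.H84.ZZ.Nod
import Pool.Agent.H23.ZZ.Fin

/-! From lists to the theorem `H23.ZZ.fin_of_y`. -/

open Finset Polynomial

namespace H38.ZZ

/-- sum over the pairs of a list -/
noncomputable def pairSum {α : Type} (f : α → α → ℝ) : List α → ℝ
  | [] => 0
  | (a :: l) => (l.map (f a)).sum + pairSum f l

theorem pairSum_eq {α : Type} (f : α → α → ℝ) (hf : ∀ a b, f a b = f b a) (l : List α) :
    ∑ m : Fin l.length, ∑ n ∈ univ.filter (fun n : Fin l.length => n ≠ m),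
      f l[m.1] l[n.1] = 2 * pairSum f l := by
  induction l with
  | nil => simp [pairSum]
  | cons a l ih =>
    simp only [Finset.sum_filter] at ih ⊢
    change ∑ m : Fin (l.length + 1), ∑ n : Fin (l.length + 1),
      (if n ≠ m then f (a :: l)[m.1] (a :: l)[n.1] else 0) = _
    rw [Fin.sum_univ_succ]
    have h1 : (∑ n : Fin (l.length + 1), (if n ≠ 0 then f (a :: l)[(0 : Fin (l.length + 1)).1]
        (a :: l)[n.1] else 0)) = (l.map (f a)).sum := by
      rw [Fin.sum_univ_succ, if_neg (by simp), zero_add, ← Fin.sum_univ_fun_getElem]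
      refine Finset.sum_congr rfl fun n _ => ?_
      rw [if_pos (Fin.succ_ne_zero n)]
      simp
    have h2 : ∀ m : Fin l.length, (∑ n : Fin (l.length + 1), (if n ≠ m.succ then
        f (a :: l)[m.succ.1] (a :: l)[n.1] else 0)) = f a l[m.1] +
        ∑ n : Fin l.length, (if n ≠ m then f l[m.1] l[n.1] else 0) := by
      intro m
      rw [Fin.sum_univ_succ, if_pos (Fin.succ_ne_zero m).symm]
      congr 1
      · rw [hf a]; simp
      · refine Finset.sum_congr rfl fun n _ => ?_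
        by_cases h : n = m
        · rw [if_neg (by simp [h]), if_neg (by simp [h])]
        · rw [if_pos (by simpa using h), if_pos h]
          simp
    rw [h1, Finset.sum_congr rfl (fun m _ => h2 m), Finset.sum_add_distrib, ih,
      Fin.sum_univ_fun_getElem, pairSum]
    ring

/-- number of pairs -/
def cnt {α : Type} : List α → ℕ
  | [] => 0
  | (_ :: l) => l.length + cnt l

theorem cnt_eq {α : Type} (l : List α) : 2 * cnt l = l.length * (l.length - 1) := by
  induction l with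
  | nil => simp [cnt]
  | cons a l ih =>
    rw [cnt, mul_add, ih, List.length_cons, Nat.add_sub_cancel]
    cases h : l.length with
    | zero => simp
    | succ k => rw [Nat.add_sub_cancel]; ring

/-- the energy of two nodes in `y` -/
theorem mir_id (y z : ℝ) : 4 * y * (1 + y * z * (y + z - 3)) =
    (2 * y * z + y ^ 2 - 3 * y) ^ 2 + y * (y - 1) ^ 2 * (4 - y) := by ring

theorem mir_pos {y : ℝ} (z : ℝ) (h0 : 0 < y) (h4 : y < 4) (h1 : y ≠ 1) :
    0 < 1 + y * z * (y + z - 3) := by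
  have h2 : 0 < y * (y - 1) ^ 2 * (4 - y) := by
    have h3 : 0 < (y - 1) ^ 2 := by
      have : y - 1 ≠ 0 := sub_ne_zero.2 h1
      positivity
    have h5 : 0 < 4 - y := by linarith
    positivity
  have h3 := mir_id y z
  have h5 : 0 < 4 * y * (1 + y * z * (y + z - 3)) := by
    rw [h3]
    nlinarith [sq_nonneg (2 * y * z + y ^ 2 - 3 * y)]
  exact (pos_iff_pos_of_mul_pos h5).1 (by positivity)

theorem pairN_cast (a b : ℕ) : ((pairN a b : ℕ) : ℝ) = 2 ^ 100 *
    (((a : ℝ) / 1048576 - b / 1048576) ^ 2 *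
      (1 + (a / 1048576) * (b / 1048576) * (a / 1048576 + b / 1048576 - 3))) := by
  have h1 : (((a - b + (b - a) : ℕ)) : ℝ) ^ 2 = ((a : ℝ) - b) ^ 2 := by
    rcases le_total a b with h | h
    · rw [Nat.sub_eq_zero_of_le h, zero_add, Nat.cast_sub h]; ring
    · rw [Nat.sub_eq_zero_of_le h, add_zero, Nat.cast_sub h]
  have h2 : 3145728 * (a * b) ≤ 1152921504606846976 + a * b * (a + b) := by
    have h := H84.ZZ.amgm 1048576 a b (by norm_num) (Nat.cast_nonneg a) (Nat.cast_nonneg b)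
    have h3 : ((3145728 * (a * b) : ℕ) : ℝ) ≤ ((1152921504606846976 + a * b * (a + b) : ℕ) : ℝ) := by
      push_cast
      norm_num at h
      linarith
    exact_mod_cast h3
  unfold pairN
  change (((a - b + (b - a)) * (a - b + (b - a)) *
    (1152921504606846976 + a * b * (a + b) - 3145728 * (a * b)) : ℕ) : ℝ) = _
  rw [Nat.cast_mul, Nat.cast_mul, Nat.cast_sub h2, ← pow_two, h1]
  push_cast
  ring

theorem ownN_cast (a : ℕ × ℕ × ℕ) (h : a.1 ≤ 4194304) : ((ownN a : ℕ) : ℝ) = 2 ^ 140 *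
    (((a.2.1 : ℝ) / 1048576) ^ 2 * ((a.1 / 1048576) * (4 - a.1 / 1048576)) *
      (1 + ((a.1 : ℝ) / 1048576) ^ 2 * (2 * (a.1 / 1048576) - 3))) := by
  have h1 : (((a.1 - 1048576 + (1048576 - a.1) : ℕ)) : ℝ) ^ 2 = ((a.1 : ℝ) - 1048576) ^ 2 := by
    rcases le_total a.1 1048576 with h | h
    · rw [Nat.sub_eq_zero_of_le h, zero_add, Nat.cast_sub h]; push_cast; ring
    · rw [Nat.sub_eq_zero_of_le h, add_zero, Nat.cast_sub h]; push_cast; ring
  unfold ownN
  change ((a.2.1 * a.2.1 * (a.1 * (4194304 - a.1)) *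
    ((a.1 - 1048576 + (1048576 - a.1)) * (a.1 - 1048576 + (1048576 - a.1)) *
      (1048576 + 2 * a.1)) : ℕ) : ℝ) = _
  rw [Nat.cast_mul, Nat.cast_mul, Nat.cast_mul, Nat.cast_mul, Nat.cast_sub h,
    Nat.cast_mul ((a.1 - 1048576 + (1048576 - a.1)) * (a.1 - 1048576 + (1048576 - a.1))),
    Nat.cast_mul (a.1 - 1048576 + (1048576 - a.1)), ← pow_two ((a.1 - 1048576 + (1048576 - a.1) : ℕ) : ℝ), h1]
  push_cast
  ring

/-- position, radius, bound as real numbers -/
noncomputable def yy (a : ℕ × ℕ × ℕ) : ℝ := (a.1 : ℝ) / 1048576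
@[inherit_doc yy]
noncomputable def rr (a : ℕ × ℕ × ℕ) : ℝ := (a.2.1 : ℝ) / 1048576
@[inherit_doc yy]
noncomputable def kk (a : ℕ × ℕ × ℕ) : ℝ := (a.2.2 : ℝ) / 1048576

/-- what `nodeOK` says -/
theorem nodeOK_spec {a : ℕ × ℕ × ℕ} (h : nodeOK a = true) : 0 < yy a ∧ yy a < 4 ∧ yy a ≠ 1 ∧
    0 < rr a ∧ rr a ≤ 1 ∧ rr a * (Real.sqrt (yy a * (4 - yy a)) + rr a) ≤ kk a ∧
    a.1 ≤ 4194304 := by
  unfold nodeOK at h
  simp only [Bool.and_eq_true, Bool.not_eq_true'] at h
  obtain ⟨⟨⟨⟨⟨⟨⟨h1, h2⟩, h3⟩, h4⟩, h5⟩, h6⟩, h7⟩, h8⟩ := h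
  have g1 := Nat.le_of_ble_eq_true h1
  have g2 := Nat.le_of_ble_eq_true h2
  have g3 : a.1 ≠ 1048576 := Nat.ne_of_beq_eq_false h3
  have g4 := Nat.le_of_ble_eq_true h4
  have g5 := Nat.le_of_ble_eq_true h5
  have g7 := Nat.le_of_ble_eq_true h7
  have g8 := Nat.le_of_ble_eq_true h8
  have f1 : (1 : ℝ) ≤ a.1 := by exact_mod_cast g1
  have f2 : (a.1 : ℝ) + 1 ≤ 4194304 := by exact_mod_cast g2
  have f4 : (1 : ℝ) ≤ a.2.1 := by exact_mod_cast g4
  have f5 : (a.2.1 : ℝ) ≤ 1048576 := by exact_mod_cast g5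
  have f7 : (a.2.1 : ℝ) * a.2.1 ≤ a.2.2 * 1048576 := by exact_mod_cast g7
  have f8 : (a.2.1 : ℝ) * a.2.1 * (a.1 * (4194304 - a.1)) ≤
      (a.2.2 * 1048576 - a.2.1 * a.2.1) * (a.2.2 * 1048576 - a.2.1 * a.2.1) := by
    have h := (Nat.cast_le (α := ℝ)).2 g8
    rw [Nat.cast_mul, Nat.cast_mul, Nat.cast_mul, Nat.cast_mul, Nat.cast_sub (by omega),
      Nat.cast_sub g7] at h
    push_cast at h
    exact h
  refine ⟨by unfold yy; positivity, ?_, ?_, by unfold rr; positivity, ?_, ?_, by omega⟩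
  · unfold yy
    rw [div_lt_iff₀ (by norm_num)]
    linarith
  · unfold yy
    intro h
    rw [div_eq_one_iff_eq (by norm_num)] at h
    exact g3 (by exact_mod_cast h)
  · unfold rr
    rw [div_le_one (by norm_num)]
    exact f5
  · have e1 : rr a * Real.sqrt (yy a * (4 - yy a)) ≤ kk a - rr a ^ 2 := by
      refine le_of_sq_le_sq ?_ ?_
      · rw [mul_pow, Real.sq_sqrt]
        · unfold rr yy kk
          have : ((a.2.1 : ℝ) / 1048576) ^ 2 * (a.1 / 1048576 * (4 - a.1 / 1048576)) =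
            (a.2.1 * a.2.1 * (a.1 * (4194304 - a.1))) / 1048576 ^ 4 := by
            field_simp; ring
          rw [this]
          have : ((a.2.2 : ℝ) / 1048576 - (a.2.1 / 1048576) ^ 2) ^ 2 =
            ((a.2.2 * 1048576 - a.2.1 * a.2.1) * (a.2.2 * 1048576 - a.2.1 * a.2.1))
              / 1048576 ^ 4 := by
            field_simp
          rw [this]
          exact div_le_div_of_nonneg_right f8 (by norm_num)
        · unfold yy
          have : (0 : ℝ) ≤ 4 - a.1 / 1048576 := by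
            rw [sub_nonneg, div_le_iff₀ (by norm_num)]; linarith
          positivity
      · unfold rr kk
        have : ((a.2.2 : ℝ) / 1048576 - (a.2.1 / 1048576) ^ 2) =
            (a.2.2 * 1048576 - a.2.1 * a.2.1) / 1048576 ^ 2 := by
          field_simp
        rw [this]
        exact div_nonneg (by linarith) (by norm_num)
    calc _ = rr a * Real.sqrt (yy a * (4 - yy a)) + rr a ^ 2 := by ring
      _ ≤ _ := by linarith

/-- log of a pair -/
noncomputable def gg (a b : ℕ × ℕ × ℕ) : ℝ :=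
  Real.log ((yy a - yy b) ^ 2 * (1 + yy a * yy b * (yy a + yy b - 3)))

/-- log of the one-node part -/
noncomputable def oo (a : ℕ × ℕ × ℕ) : ℝ :=
  Real.log (rr a ^ 2 * (yy a * (4 - yy a)) * (1 + yy a ^ 2 * (2 * yy a - 3)))

theorem pair_log {a b : ℕ × ℕ × ℕ} (ha : nodeOK a = true) (hab : a.1 ≠ b.1) :
    0 < pairN a.1 b.1 ∧ Real.log (pairN a.1 b.1) = gg a b + 100 * Real.log 2 := by
  obtain ⟨h0, h4, h1, _⟩ := nodeOK_spec ha
  have h5 : 0 < (yy a - yy b) ^ 2 * (1 + yy a * yy b * (yy a + yy b - 3)) := by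
    refine mul_pos ?_ (mir_pos _ h0 h4 h1)
    have : yy a - yy b ≠ 0 := by
      unfold yy
      intro h
      have h6 : (a.1 : ℝ) / 1048576 = b.1 / 1048576 := by linarith
      rw [div_left_inj' (by norm_num)] at h6
      exact hab (by exact_mod_cast h6)
    positivity
  have h6 := pairN_cast a.1 b.1
  change ((pairN a.1 b.1 : ℕ) : ℝ) = 2 ^ 100 * ((yy a - yy b) ^ 2 *
    (1 + yy a * yy b * (yy a + yy b - 3))) at h6
  constructor
  · have : (0 : ℝ) < pairN a.1 b.1 := by rw [h6]; positivity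
    exact_mod_cast this
  · rw [h6, Real.log_mul (by positivity) h5.ne', Real.log_pow, gg]
    push_cast
    ring

theorem row_log (a : ℕ × ℕ × ℕ) (ha : nodeOK a = true) (l : List (ℕ × ℕ × ℕ))
    (h : ∀ b ∈ l, a.1 < b.1) : 0 < rowN a.1 (l.map (fun a => (a.1, a.2.2))) ∧
    Real.log (rowN a.1 (l.map (fun a => (a.1, a.2.2)))) =
      (l.map (gg a)).sum + 100 * l.length * Real.log 2 := by
  induction l with
  | nil => simp [rowN]
  | cons b l ih =>
    obtain ⟨h1, h2⟩ := ih (fun c hc => h c (List.mem_cons_of_mem _ hc))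
    obtain ⟨h3, h4⟩ := pair_log (b := b) ha (h b List.mem_cons_self).ne
    have h5 : rowN a.1 ((b :: l).map (fun a => (a.1, a.2.2))) =
      pairN a.1 b.1 * rowN a.1 (l.map (fun a => (a.1, a.2.2))) := rfl
    rw [h5]
    refine ⟨Nat.mul_pos h3 h1, ?_⟩
    have h6 : (0 : ℝ) < pairN a.1 b.1 := by exact_mod_cast h3
    have h7 : (0 : ℝ) < rowN a.1 (l.map (fun a => (a.1, a.2.2))) := by exact_mod_cast h1
    rw [Nat.cast_mul, Real.log_mul h6.ne' h7.ne', h4, h2, List.map_cons, List.sum_cons,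
      List.length_cons]
    push_cast
    ring

theorem all_log (l : List (ℕ × ℕ × ℕ)) (hok : ∀ a ∈ l, nodeOK a = true)
    (hlt : l.Pairwise (fun a b => a.1 < b.1)) : 0 < allN (l.map (fun a => (a.1, a.2.2))) ∧
    Real.log (allN (l.map (fun a => (a.1, a.2.2)))) =
      pairSum gg l + 100 * cnt l * Real.log 2 := by
  induction l with
  | nil => simp [allN, pairSum, cnt]
  | cons a l ih =>
    obtain ⟨h1, h2⟩ := ih (fun c hc => hok c (List.mem_cons_of_mem _ hc))
      (List.pairwise_cons.1 hlt).2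
    obtain ⟨h3, h4⟩ := row_log a (hok a List.mem_cons_self) l (List.pairwise_cons.1 hlt).1
    have h5 : allN ((a :: l).map (fun a => (a.1, a.2.2))) =
      rowN a.1 (l.map (fun a => (a.1, a.2.2))) * allN (l.map (fun a => (a.1, a.2.2))) := rfl
    rw [h5]
    refine ⟨Nat.mul_pos h3 h1, ?_⟩
    have h6 : (0 : ℝ) < rowN a.1 (l.map (fun a => (a.1, a.2.2))) := by exact_mod_cast h3
    have h7 : (0 : ℝ) < allN (l.map (fun a => (a.1, a.2.2))) := by exact_mod_cast h1
    rw [Nat.cast_mul, Real.log_mul h6.ne' h7.ne', h4, h2, pairSum, cnt]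
    push_cast
    ring

theorem own_pos {a : ℕ × ℕ × ℕ} (ha : nodeOK a = true) :
    0 < rr a ^ 2 ∧ 0 < yy a * (4 - yy a) ∧ 0 < 1 + yy a ^ 2 * (2 * yy a - 3) := by
  obtain ⟨h0, h4, h1, h5, _⟩ := nodeOK_spec ha
  refine ⟨by positivity, mul_pos h0 (by linarith), ?_⟩
  have h6 : yy a - 1 ≠ 0 := sub_ne_zero.2 h1
  have h7 : 1 + yy a ^ 2 * (2 * yy a - 3) = (yy a - 1) ^ 2 * (2 * yy a + 1) := by ring
  rw [h7]
  positivity

theorem ownAll_log (l : List (ℕ × ℕ × ℕ)) (hok : ∀ a ∈ l, nodeOK a = true) :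
    0 < ownAll l ∧ Real.log (ownAll l) = (l.map oo).sum + 140 * l.length * Real.log 2 := by
  induction l with
  | nil => simp [ownAll]
  | cons a l ih =>
    obtain ⟨h1, h2⟩ := ih (fun c hc => hok c (List.mem_cons_of_mem _ hc))
    obtain ⟨g1, g2, g3⟩ := own_pos (hok a List.mem_cons_self)
    obtain ⟨_, _, _, _, _, _, g4⟩ := nodeOK_spec (hok a List.mem_cons_self)
    have h6 := ownN_cast a g4
    change ((ownN a : ℕ) : ℝ) = 2 ^ 140 * (rr a ^ 2 * (yy a * (4 - yy a)) *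
      (1 + yy a ^ 2 * (2 * yy a - 3))) at h6
    have h5 : ownAll (a :: l) = ownN a * ownAll l := rfl
    rw [h5]
    have h7 : (0 : ℝ) < ownN a := by rw [h6]; positivity
    have h8 : (0 : ℝ) < ownAll l := by exact_mod_cast h1
    refine ⟨Nat.mul_pos (by exact_mod_cast h7) h1, ?_⟩
    rw [Nat.cast_mul, Real.log_mul h7.ne' h8.ne', h2, h6, Real.log_mul (by positivity)
      (by positivity), Real.log_pow, List.map_cons, List.sum_cons, List.length_cons, oo]
    push_cast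
    ring

/-- the theorem from a list of nodes -/
theorem fin_of_list (l : List (ℕ × ℕ × ℕ)) (hl : 0 < l.length) (hok : l.all nodeOK = true)
    (hlt : l.Pairwise (fun a b => a.1 < b.1)) (n : Fin 5 → ℕ) (N : ℕ) (hN : 0 < N) (D : ℝ)
    (hD : 0 < D) (hdeg : 2 * n 0 + 2 * n 1 + 8 * n 2 + 16 * n 3 + 6 * n 4 + 4 * l.length < 2 * N)
    (hy : ∀ y : ℝ, 0 ≤ y → y ≤ 4 →
      y ^ n 0 * |1 - y| ^ (2 * n 1) * |H23.ZZ.A10 y| ^ n 2 * |H23.ZZ.A8 y| ^ n 3
        * |H23.ZZ.A3 y| ^ n 4 *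
        (l.map (fun a : ℕ × ℕ × ℕ => (max |y - a.1 / 1048576| ((a.2.2 : ℝ) / 1048576)) ^ 2 *
      (1 + y * (a.1 / 1048576) * (y + a.1 / 1048576 - 3) + ((a.2.2 : ℝ) / 1048576) ^ 2))).prod
        ≤ D * (max 1 y) ^ N)
    (s t : ℕ) (hs : 2 ^ s ≤ allN (l.map (fun a => (a.1, a.2.2))))
    (ht : 2 ^ (l.length * 140) ≤ ownAll l * 2 ^ t) (m : ℝ)
    (hm : m * N < -(Real.log D) / 2 +
      (4 * ((s : ℝ) - 100 * cnt l) - 2 * t) * Real.log 2 / (8 * l.length)) :
    Set.Finite {α : ℂ | ∃ p : ℤ[X], Irreducible p ∧ 0 < p.natDegree ∧ aeval α p = 0 ∧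
      Pool.H1.ZZ.height p ≤ m} := by
  have hok' : ∀ a ∈ l, nodeOK a = true := fun a ha => List.all_eq_true.1 hok a ha
  have hok'' : ∀ i : Fin l.length, nodeOK l[i.1] = true := fun i =>
    hok' _ (List.getElem_mem _)
  have hne : ∀ i j : Fin l.length, i ≠ j → (l[i.1]).1 ≠ (l[j.1]).1 := by
    intro i j hij
    rw [List.pairwise_iff_getElem] at hlt
    rcases lt_or_gt_of_ne (fun h => hij (Fin.ext h) : i.1 ≠ j.1) with h | h
    · exact (hlt i.1 j.1 i.2 j.2 h).ne
    · exact (hlt j.1 i.1 j.2 i.2 h).ne'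
  have hyne : ∀ i j : Fin l.length, i ≠ j → yy l[i.1] ≠ yy l[j.1] := by
    intro i j hij h
    unfold yy at h
    rw [div_left_inj' (by norm_num)] at h
    exact hne i j hij (by exact_mod_cast h)
  obtain ⟨g1, g2⟩ := all_log l hok' hlt
  obtain ⟨g3, g4⟩ := ownAll_log l hok'
  refine H23.ZZ.fin_of_y hl (fun i => yy l[i.1]) (fun i => rr l[i.1]) (fun i => kk l[i.1])
    (fun i => (nodeOK_spec (hok'' i)).1) (fun i => (nodeOK_spec (hok'' i)).2.1)
    (fun i => (nodeOK_spec (hok'' i)).2.2.1) hyne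
    (fun i j _ => (mir_pos _ (nodeOK_spec (hok'' i)).1 (nodeOK_spec (hok'' i)).2.1
      (nodeOK_spec (hok'' i)).2.2.1).ne')
    (fun i => (nodeOK_spec (hok'' i)).2.2.2.1) (fun i => (nodeOK_spec (hok'' i)).2.2.2.2.1)
    (fun i => (nodeOK_spec (hok'' i)).2.2.2.2.2.1) n N hN (Real.sqrt D) (Real.sqrt_pos.2 hD)
    hdeg ?_ ((4 * ((s : ℝ) - 100 * cnt l) - 2 * t) * Real.log 2) ?_ m ?_
  · intro y h0 h4
    rw [Real.sq_sqrt hD.le, ← Finset.prod_mul_distrib]
    have h5 := Fin.prod_univ_fun_getElem l (fun a : ℕ × ℕ × ℕ =>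
      (max |y - a.1 / 1048576| ((a.2.2 : ℝ) / 1048576)) ^ 2 *
      (1 + y * (a.1 / 1048576) * (y + a.1 / 1048576 - 3) + ((a.2.2 : ℝ) / 1048576) ^ 2))
    have h6 := hy y h0 h4
    have h7 : 0 ≤ (l.map (fun a : ℕ × ℕ × ℕ =>
      (max |y - a.1 / 1048576| ((a.2.2 : ℝ) / 1048576)) ^ 2 *
      (1 + y * (a.1 / 1048576) * (y + a.1 / 1048576 - 3) + ((a.2.2 : ℝ) / 1048576) ^ 2))).prod := by
      refine List.prod_nonneg fun x hx => ?_
      obtain ⟨a, ha, rfl⟩ := List.mem_map.1 hx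
      obtain ⟨f0, f4, f1, _⟩ := nodeOK_spec (hok' a ha)
      have h8 := mir_pos y f0 f4 f1
      unfold yy at h8
      have h9 : 1 + y * (a.1 / 1048576) * (y + a.1 / 1048576 - 3) =
        1 + (a.1 : ℝ) / 1048576 * y * (a.1 / 1048576 + y - 3) := by ring
      have h10 : (0 : ℝ) ≤ 1 + y * (a.1 / 1048576) * (y + a.1 / 1048576 - 3) := by
        rw [h9]; exact h8.le
      positivity
    have h8 : y ^ n 0 * |1 - y| ^ (2 * n 1) * H23.ZZ.A10 y ^ n 2 * H23.ZZ.A8 y ^ n 3
        * H23.ZZ.A3 y ^ n 4 ≤ y ^ n 0 * |1 - y| ^ (2 * n 1) * |H23.ZZ.A10 y| ^ n 2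
        * |H23.ZZ.A8 y| ^ n 3 * |H23.ZZ.A3 y| ^ n 4 := by
      have h11 : H23.ZZ.A10 y ^ n 2 * H23.ZZ.A8 y ^ n 3 * H23.ZZ.A3 y ^ n 4 ≤
          |H23.ZZ.A10 y| ^ n 2 * |H23.ZZ.A8 y| ^ n 3 * |H23.ZZ.A3 y| ^ n 4 := by
        refine (le_abs_self _).trans_eq ?_
        rw [abs_mul, abs_mul, abs_pow, abs_pow, abs_pow]
      have h12 := mul_le_mul_of_nonneg_left h11
        (by positivity : 0 ≤ y ^ n 0 * |1 - y| ^ (2 * n 1))
      calc _ = _ := by ring
        _ ≤ _ := h12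
        _ = _ := by ring
    have h9 := (mul_le_mul_of_nonneg_right h8 h7).trans h6
    rw [← h5] at h9
    exact h9
  · have e1 : (∑ i : Fin l.length, ∑ j ∈ univ.filter (fun j : Fin l.length => j ≠ i),
        (4 * Real.log |yy l[i.1] - yy l[j.1]| + 2 * Real.log (1 + yy l[i.1] * yy l[j.1] *
          (yy l[i.1] + yy l[j.1] - 3)))) = 4 * pairSum gg l := by
      have e2 := pairSum_eq gg (fun a b => by
        unfold gg
        congr 1
        ring) l
      rw [show (4 : ℝ) * pairSum gg l = 2 * (2 * pairSum gg l) by ring, ← e2,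
        Finset.mul_sum]
      refine Finset.sum_congr rfl fun i _ => ?_
      rw [Finset.mul_sum]
      refine Finset.sum_congr rfl fun j hj => ?_
      have hji : i ≠ j := (Finset.mem_filter.1 hj).2.symm
      obtain ⟨h0, h4, h1, _⟩ := nodeOK_spec (hok'' i)
      have e3 : yy l[i.1] - yy l[j.1] ≠ 0 := sub_ne_zero.2 (hyne i j hji)
      rw [gg, Real.log_mul (by positivity) (mir_pos _ h0 h4 h1).ne', Real.log_pow,
        Real.log_abs]
      push_cast
      ring
    have e4 : (∑ i : Fin l.length, (4 * Real.log (rr l[i.1])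
        + 2 * Real.log (yy l[i.1] * (4 - yy l[i.1]))
        + 2 * Real.log (1 + yy l[i.1] ^ 2 * (2 * yy l[i.1] - 3)))) = 2 * (l.map oo).sum := by
      rw [← Fin.sum_univ_fun_getElem l oo, Finset.mul_sum]
      refine Finset.sum_congr rfl fun i _ => ?_
      obtain ⟨f1, f2, f3⟩ := own_pos (hok'' i)
      rw [oo, Real.log_mul (by positivity) f3.ne', Real.log_mul f1.ne' f2.ne', Real.log_pow]
      push_cast
      ring
    rw [e1, e4]
    have hlog2 : 0 < Real.log 2 := Real.log_pos (by norm_num)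
    have e5 : (s : ℝ) * Real.log 2 ≤ Real.log (allN (l.map (fun a => (a.1, a.2.2)))) := by
      rw [← Real.log_pow]
      refine Real.log_le_log (by positivity) ?_
      exact_mod_cast hs
    have e6 : ((l.length * 140 : ℕ) : ℝ) * Real.log 2 ≤ Real.log (ownAll l)
        + t * Real.log 2 := by
      have h7 : (0 : ℝ) < ownAll l := by exact_mod_cast g3
      rw [← Real.log_pow, ← Real.log_pow, ← Real.log_mul h7.ne' (by positivity)]
      refine Real.log_le_log (by positivity) ?_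
      exact_mod_cast ht
    rw [g2] at e5
    rw [g4] at e6
    push_cast at e6
    nlinarith
  · rw [Real.log_sqrt hD.le]
    refine hm.trans_eq ?_
    ring

end H38.ZZ
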