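import Pool.Agent.H38.ZZ.Prod

/-! The products of the pairs: kernel bounds. -/

namespace H38.ZZ

theorem par00 : 2 ^ 1558841 ≤ parN 32 (nodes.drop 0) := by decide +kernel

theorem par01 : 2 ^ 1459620 ≤ parN 32 (nodes.drop 32) := by decide +kernel

theorem par02 : 2 ^ 1361253 ≤ parN 32 (nodes.drop 64) := by decide +kernel

theorem par03 : 2 ^ 1266160 ≤ parN 32 (nodes.drop 96) := by decide +kernel

theorem par04 : 2 ^ 1164134 ≤ parN 32 (nodes.drop 128) := by decide +kernel

theorem par05 : 2 ^ 1068795 ≤ parN 32 (nodes.drop 160) := by decide +kernel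

theorem par06 : 2 ^ 974526 ≤ parN 32 (nodes.drop 192) := by decide +kernel

theorem par07 : 2 ^ 882639 ≤ parN 32 (nodes.drop 224) := by decide +kernel

theorem par08 : 2 ^ 785323 ≤ parN 32 (nodes.drop 256) := by decide +kernel

theorem par09 : 2 ^ 682683 ≤ parN 32 (nodes.drop 288) := by decide +kernel

theorem par10 : 2 ^ 579602 ≤ parN 32 (nodes.drop 320) := by decide +kernel

theorem par11 : 2 ^ 475431 ≤ parN 32 (nodes.drop 352) := by decide +kernel

theorem par12 : 2 ^ 367210 ≤ parN 32 (nodes.drop 384) := by decide +kernel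

theorem par13 : 2 ^ 259955 ≤ parN 32 (nodes.drop 416) := by decide +kernel

theorem par14 : 2 ^ 152884 ≤ parN 32 (nodes.drop 448) := by decide +kernel

theorem par15 : 2 ^ 47877 ≤ parN 32 (nodes.drop 480) := by decide +kernel

theorem allN_step (k k' : ℕ) (l : List (ℕ × ℕ)) (h : k + 32 = k') :
    allN (l.drop k) = parN 32 (l.drop k) * allN (l.drop k') := by
  subst h
  have := allN_split 32 (l.drop k)
  rwa [List.drop_drop] at this

theorem lb_mul {a b c x y : ℕ} (hc : a + b = c) (h : 2 ^ a ≤ x) (h' : 2 ^ b ≤ y) :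
    2 ^ c ≤ x * y := by
  subst hc
  rw [pow_add]
  exact Nat.mul_le_mul h h'

theorem tl16 : 2 ^ 0 ≤ allN (nodes.drop 512) := by
  have h : nodes.drop 512 = [] := by decide +kernel
  rw [h]
  exact le_refl 1

theorem tl15 : 2 ^ 47877 ≤ allN (nodes.drop 480) := by
  rw [allN_step 480 512 nodes rfl]
  exact lb_mul (by norm_num) par15 tl16

theorem tl14 : 2 ^ 200761 ≤ allN (nodes.drop 448) := by
  rw [allN_step 448 480 nodes rfl]
  exact lb_mul (by norm_num) par14 tl15

theorem tl13 : 2 ^ 460716 ≤ allN (nodes.drop 416) := by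
  rw [allN_step 416 448 nodes rfl]
  exact lb_mul (by norm_num) par13 tl14

theorem tl12 : 2 ^ 827926 ≤ allN (nodes.drop 384) := by
  rw [allN_step 384 416 nodes rfl]
  exact lb_mul (by norm_num) par12 tl13

theorem tl11 : 2 ^ 1303357 ≤ allN (nodes.drop 352) := by
  rw [allN_step 352 384 nodes rfl]
  exact lb_mul (by norm_num) par11 tl12

theorem tl10 : 2 ^ 1882959 ≤ allN (nodes.drop 320) := by
  rw [allN_step 320 352 nodes rfl]
  exact lb_mul (by norm_num) par10 tl11

theorem tl09 : 2 ^ 2565642 ≤ allN (nodes.drop 288) := by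
  rw [allN_step 288 320 nodes rfl]
  exact lb_mul (by norm_num) par09 tl10

theorem tl08 : 2 ^ 3350965 ≤ allN (nodes.drop 256) := by
  rw [allN_step 256 288 nodes rfl]
  exact lb_mul (by norm_num) par08 tl09

theorem tl07 : 2 ^ 4233604 ≤ allN (nodes.drop 224) := by
  rw [allN_step 224 256 nodes rfl]
  exact lb_mul (by norm_num) par07 tl08

theorem tl06 : 2 ^ 5208130 ≤ allN (nodes.drop 192) := by
  rw [allN_step 192 224 nodes rfl]
  exact lb_mul (by norm_num) par06 tl07

theorem tl05 : 2 ^ 6276925 ≤ allN (nodes.drop 160) := by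
  rw [allN_step 160 192 nodes rfl]
  exact lb_mul (by norm_num) par05 tl06

theorem tl04 : 2 ^ 7441059 ≤ allN (nodes.drop 128) := by
  rw [allN_step 128 160 nodes rfl]
  exact lb_mul (by norm_num) par04 tl05

theorem tl03 : 2 ^ 8707219 ≤ allN (nodes.drop 96) := by
  rw [allN_step 96 128 nodes rfl]
  exact lb_mul (by norm_num) par03 tl04

theorem tl02 : 2 ^ 10068472 ≤ allN (nodes.drop 64) := by
  rw [allN_step 64 96 nodes rfl]
  exact lb_mul (by norm_num) par02 tl03

theorem tl01 : 2 ^ 11528092 ≤ allN (nodes.drop 32) := by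
  rw [allN_step 32 64 nodes rfl]
  exact lb_mul (by norm_num) par01 tl02

theorem tl00 : 2 ^ 13086933 ≤ allN (nodes.drop 0) := by
  rw [allN_step 0 32 nodes rfl]
  exact lb_mul (by norm_num) par00 tl01

theorem all_lb : 2 ^ 13086933 ≤ allN nodes := tl00

end H38.ZZ
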