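import Pool.Agent.H38.ZZ.Yin
import Pool.Agent.H38.ZZ.Par
import Pool.Agent.H38.ZZ.Lst
import Pool.Agent.H38.ZZ.Def2

/-!
# The spectrum of the Zhang-Zagier height below `0.2497`

Method: for an irreducible `p` of degree `d` and an auxiliary product of integer polynomials and of
smeared point charges, the inequality `energy` (discriminant of `p` at least `1` and positivity of the
logarithmic energy) bounds the height of `p` from below, up to `O(log d / d)`, by a number that depends
on the maximum of the auxiliary product on the two circles `|z| = 1` and `|1 - z| = 1`. The certificate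
has `4 * 512` charges and five polynomials; the maximum is checked on `1063` intervals by the kernel.

Definitions (in `Pool.Agent.H38.ZZ.Def2`): `intMinpoly α`, the minimal polynomial of `α` over `ℤ`
(primitive, up to sign); `weil α = log M(α) / d`, with `M` the Mahler measure; `zzHeight α`, the
Zhang-Zagier height `H(α) = h(α) + h(1 - α)`.
-/

open Polynomial H38.ZZ

namespace H38.ZZ.Below

/-- The set of the positive values of the Zhang-Zagier height on algebraic numbers. -/
def S : Set ℝ := {t | 0 < t ∧ ∃ α : ℂ, IsAlgebraic ℚ α ∧ zzHeight α = t}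

/-- The number `log ((1 + √5) / 2) / 2`, the least element of `S` by Zagier's theorem. -/
noncomputable def s₀ : ℝ := Real.log ((1 + Real.sqrt 5) / 2) / 2

theorem numbers : (2497 / 10000 : ℝ) * (12309 : ℕ) < -(Real.log ((805 : ℕ) / 2 ^ 8877)) / 2 +
    (4 * (((13086933 : ℕ) : ℝ) - 100 * cnt nodes3) - 2 * (9351 : ℕ)) * Real.log 2
      / (8 * nodes3.length) := by
  have h1 : (cnt nodes3 : ℝ) = 130816 := by
    have h := cnt_eq nodes3
    rw [nodes3_len] at h
    have h' : cnt nodes3 = 130816 := by omega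
    rw [h']
    norm_num
  have h2 := Real.log_two_gt_d9
  have h3 : Real.log ((805 : ℕ) : ℝ) ≤ 29 / 3 * Real.log 2 := by
    have h4 : Real.log (((805 : ℕ) : ℝ) ^ 3) ≤ Real.log ((2 : ℝ) ^ 29) :=
      Real.log_le_log (by norm_num) (by norm_num)
    rw [Real.log_pow, Real.log_pow] at h4
    generalize Real.log ((805 : ℕ) : ℝ) = x at h4 ⊢
    norm_num at h4
    linarith
  have h5 : Real.log (((805 : ℕ) : ℝ) / 2 ^ 8877) = Real.log ((805 : ℕ) : ℝ) - 8877 * Real.log 2 := by
    rw [Real.log_div (by norm_num) (pow_ne_zero _ (by norm_num)), Real.log_pow]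
    norm_num
  rw [h1, h5, nodes3_len]
  generalize Real.log ((805 : ℕ) : ℝ) = x at h3 ⊢
  generalize Real.log 2 = z at h2 h3 ⊢
  norm_num
  linarith

theorem finite_height : Set.Finite {α : ℂ | ∃ p : ℤ[X], Irreducible p ∧ 0 < p.natDegree ∧
    aeval α p = 0 ∧ Pool.H1.ZZ.height p ≤ 2497 / 10000} := by
  refine fin_of_list nodes3 (by rw [nodes3_len]; norm_num) nodes3_ok nodes3_lt
    ![2767, 2159, 59, 11, 1] 12309 (by norm_num) ((805 : ℕ) / 2 ^ 8877)
    (div_pos (by norm_num) (pow_pos (by norm_num) _)) ?_ ?_ 13086933 9351 ?_ ?_ (2497 / 10000)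
    numbers
  · rw [nodes3_len]
    change 2 * 2767 + 2 * 2159 + 8 * 59 + 16 * 11 + 6 * 1 + 4 * 512 < 2 * 12309
    norm_num
  · intro y h0 h4
    exact y_ineq y h0 h4
  · rw [← nodes_eq]
    exact all_lb
  · rw [nodes3_len]
    exact own_lb

theorem finite_zz : {α : ℂ | IsAlgebraic ℚ α ∧ zzHeight α ≤ 2497 / 10000}.Finite := by
  refine finite_height.subset ?_
  rintro α ⟨hα, h⟩
  refine ⟨intMinpoly α, intMinpoly_irreducible hα, intMinpoly_pos hα, intMinpoly_aeval hα, ?_⟩
  rw [← zzHeight_eq (intMinpoly_irreducible hα) (intMinpoly_pos hα) (intMinpoly_aeval hα)]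
  exact h

theorem finite_S : (S ∩ Set.Iic (2497 / 10000)).Finite := by
  refine (finite_zz.image zzHeight).subset ?_
  rintro t ⟨⟨_, α, hα, rfl⟩, ht⟩
  exact ⟨α, ⟨hα, ht⟩, rfl⟩

theorem accPt_S (x : ℝ) (hx : AccPt x (Filter.principal S)) : 2497 / 10000 ≤ x := by
  by_contra h
  have h1 : AccPt x (Filter.principal (Set.Iic (2497 / 10000) ∩ S)) :=
    hx.nhds_inter (Iic_mem_nhds (not_le.1 h))
  refine Set.Infinite.of_accPt h1 ?_
  rw [Set.inter_comm]
  exact finite_S

theorem zz_two : zzHeight 2 = Real.log 2 := by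
  have h1 : Irreducible (X - C 2 : ℤ[X]) := irreducible_X_sub_C 2
  have h0 : aeval (2 : ℂ) (X - C 2 : ℤ[X]) = 0 := by
    rw [map_sub, aeval_X, aeval_C]
    simp
  rw [zzHeight_eq (p := X - C 2) h1 (by rw [natDegree_X_sub_C]; norm_num) h0]
  unfold Pool.H1.ZZ.height
  have h2 : ((X - C 2 : ℤ[X]).comp (1 - X)).map (Int.castRingHom ℂ) = C (-1) * (X - C (-1)) := by
    rw [sub_comp, X_comp, C_comp, Polynomial.map_sub, Polynomial.map_sub, Polynomial.map_one,
      map_X, map_C]
    have : (Int.castRingHom ℂ) 2 = 2 := by simp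
    rw [this]
    have e1 : (C (-1) : ℂ[X]) = -1 := by rw [C_neg, C_1]
    have e2 : (C 2 : ℂ[X]) = 2 := rfl
    rw [e1, e2]
    ring
  have h3 : ((X - C 2 : ℤ[X]).map (Int.castRingHom ℂ)) = X - C 2 := by
    rw [Polynomial.map_sub, map_X, map_C]
    simp
  rw [h2, h3, mahlerMeasure_mul, mahlerMeasure_const, natDegree_X_sub_C, mahlerMeasure_X_sub_C,
    mahlerMeasure_X_sub_C]
  simp

theorem s₀_lt : s₀ < Real.log 2 := by
  unfold s₀
  have h5 : Real.sqrt 5 < 3 := by
    rw [Real.sqrt_lt' (by norm_num)]; norm_num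
  have h6 : Real.log ((1 + Real.sqrt 5) / 2) < Real.log 2 :=
    Real.log_lt_log (by positivity) (by linarith)
  have h7 : 0 < Real.log 2 := Real.log_pos (by norm_num)
  linarith

theorem sigma_S : 2497 / 10000 ≤ sInf (S \ {s₀}) ∨ sInf (S \ {s₀}) ∈ S \ {s₀} := by
  have hne : (S \ {s₀}).Nonempty := by
    refine ⟨Real.log 2, ⟨Real.log_pos (by norm_num), 2, ?_, zz_two⟩, ?_⟩
    · exact isAlgebraic_natCast 2
    · exact s₀_lt.ne'
  by_cases h : ((S \ {s₀}) ∩ Set.Iic (2497 / 10000)).Nonempty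
  · right
    have hfin : ((S \ {s₀}) ∩ Set.Iic (2497 / 10000)).Finite :=
      finite_S.subset fun t ht => ⟨ht.1.1, ht.2⟩
    obtain ⟨t, ht, hmin⟩ := Set.exists_min_image _ id hfin h
    have : sInf (S \ {s₀}) = t := by
      refine IsLeast.csInf_eq ⟨ht.1, fun u hu => ?_⟩
      by_cases hu2 : u ≤ 2497 / 10000
      · exact hmin u ⟨hu, hu2⟩
      · exact ht.2.trans (not_le.1 hu2).le
    rw [this]
    exact ht.1
  · left
    refine le_csInf hne fun u hu => ?_
    by_contra hlt
    exact h ⟨u, hu, (not_le.1 hlt).le⟩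

end H38.ZZ.Below
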