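import Mathlib

/-! Circle averages of `log (|a + b x|^2 + δ^2)`. -/

open Real

namespace H38.ZZ

/-- rewriting `|a + b x|^2 + δ^2` as `|p + q x|^2` with `|q| < |p|` -/
theorem exists_pq (a b : ℂ) {δ : ℝ} (hδ : 0 < δ) :
    ∃ p q : ℂ, ‖q‖ < ‖p‖ ∧ (∀ x : ℂ, ‖x‖ = 1 → ‖a + b * x‖ ^ 2 + δ ^ 2 = ‖p + q * x‖ ^ 2) ∧
      max ‖a‖ ‖b‖ ≤ ‖p‖ ∧ ‖p‖ ≤ max ‖a‖ ‖b‖ + δ := by
  set A := ‖a‖ with hA
  set B := ‖b‖ with hB
  have hA0 : 0 ≤ A := norm_nonneg _
  have hB0 : 0 ≤ B := norm_nonneg _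
  set s1 := Real.sqrt ((A + B) ^ 2 + δ ^ 2) with hs1
  set s2 := Real.sqrt ((A - B) ^ 2 + δ ^ 2) with hs2
  have h1 : s1 ^ 2 = (A + B) ^ 2 + δ ^ 2 := Real.sq_sqrt (by positivity)
  have h2 : s2 ^ 2 = (A - B) ^ 2 + δ ^ 2 := Real.sq_sqrt (by positivity)
  have hs1p : 0 < s1 := Real.sqrt_pos.mpr (by positivity)
  have hs2p : 0 < s2 := Real.sqrt_pos.mpr (by positivity)
  have h12 : s2 ≤ s1 := by
    apply Real.sqrt_le_sqrt
    nlinarith [mul_nonneg hA0 hB0]
  set P := (s1 + s2) / 2 with hP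
  set Q := (s1 - s2) / 2 with hQ
  have hPp : 0 < P := by positivity
  have hQ0 : 0 ≤ Q := by rw [hQ]; linarith
  have hQP : Q < P := by rw [hQ, hP]; linarith
  have hPQ1 : P ^ 2 + Q ^ 2 = A ^ 2 + B ^ 2 + δ ^ 2 := by rw [hP, hQ]; nlinarith
  have hPQ2 : P * Q = A * B := by rw [hP, hQ]; nlinarith
  have hs1l : A + B ≤ s1 := by
    rw [hs1]; apply Real.le_sqrt_of_sq_le; nlinarith [sq_nonneg δ]
  have hs2l : |A - B| ≤ s2 := by
    rw [hs2]; apply Real.le_sqrt_of_sq_le; rw [sq_abs]; nlinarith [sq_nonneg δ]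
  have hs1u : s1 ≤ A + B + δ := by
    rw [hs1]; apply Real.sqrt_le_iff.mpr; constructor
    · positivity
    · nlinarith [mul_nonneg (add_nonneg hA0 hB0) hδ.le]
  have hs2u : s2 ≤ |A - B| + δ := by
    rw [hs2]; apply Real.sqrt_le_iff.mpr; constructor
    · positivity
    · have := sq_abs (A - B); nlinarith [mul_nonneg (abs_nonneg (A - B)) hδ.le]
  have hmax : max A B = (A + B + |A - B|) / 2 := by
    rcases le_total A B with h | h
    · rw [max_eq_right h, abs_of_nonpos (by linarith)]; ring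
    · rw [max_eq_left h, abs_of_nonneg (by linarith)]; ring
  have key : ∃ p q : ℂ, ‖p‖ = P ∧ ‖q‖ = Q ∧ (starRingEnd ℂ) p * q = (starRingEnd ℂ) a * b := by
    by_cases hab : A = 0 ∨ B = 0
    · have hQz : Q = 0 := by
        have : P * Q = 0 := by
          rw [hPQ2]; rcases hab with h | h <;> simp [h]
        rcases mul_eq_zero.mp this with h | h
        · exact absurd h hPp.ne'
        · exact h
      refine ⟨(P : ℂ), 0, ?_, ?_, ?_⟩
      · rw [Complex.norm_real, Real.norm_of_nonneg hPp.le]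
      · rw [norm_zero, hQz]
      · rcases hab with h | h
        · have : a = 0 := norm_eq_zero.mp (hA ▸ h)
          simp [this]
        · have : b = 0 := norm_eq_zero.mp (hB ▸ h)
          simp [this]
    · push Not at hab
      obtain ⟨hA1, hB1⟩ := hab
      refine ⟨((P / A : ℝ) : ℂ) * a, ((Q / B : ℝ) : ℂ) * b, ?_, ?_, ?_⟩
      · rw [norm_mul, Complex.norm_real, Real.norm_of_nonneg (by positivity), ← hA]
        field_simp
      · rw [norm_mul, Complex.norm_real, Real.norm_of_nonneg (by positivity), ← hB]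
        field_simp
      · rw [map_mul, Complex.conj_ofReal]
        have : ((P / A : ℝ) : ℂ) * ((Q / B : ℝ) : ℂ) = 1 := by
          rw [← Complex.ofReal_mul]
          have : P / A * (Q / B) = 1 := by
            rw [div_mul_div_comm, hPQ2]; field_simp
          rw [this]; simp
        calc _ = (((P / A : ℝ) : ℂ) * ((Q / B : ℝ) : ℂ)) * ((starRingEnd ℂ) a * b) := by ring
          _ = _ := by rw [this, one_mul]
  obtain ⟨p, q, hp, hq, hpq⟩ := key
  refine ⟨p, q, by rw [hp, hq]; exact hQP, ?_, ?_, ?_⟩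
  · intro x hx
    have expand : ∀ u v : ℂ, ‖u + v * x‖ ^ 2 =
        ‖u‖ ^ 2 + ‖v‖ ^ 2 + 2 * ((starRingEnd ℂ) u * v * x).re := by
      intro u v
      have hvx : ‖v * x‖ = ‖v‖ := by rw [norm_mul, hx, mul_one]
      have h3 : ‖u + v * x‖ ^ 2 = ‖u‖ ^ 2 + ‖v * x‖ ^ 2 + 2 * (u * (starRingEnd ℂ) (v * x)).re := by
        rw [Complex.sq_norm, Complex.sq_norm, Complex.sq_norm, Complex.normSq_add]
      have h4 : (u * (starRingEnd ℂ) (v * x)).re = ((starRingEnd ℂ) u * v * x).re := by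
        rw [← Complex.conj_re (u * (starRingEnd ℂ) (v * x))]
        congr 1
        rw [map_mul, Complex.conj_conj]; ring
      rw [h3, h4, hvx]
    rw [expand, expand, hpq, hp, hq]
    linarith
  · rw [hp, hmax, hP]; linarith
  · rw [hp, hmax, hP]; linarith

theorem avg_eq {p q : ℂ} (h : ‖q‖ < ‖p‖) :
    Real.circleAverage (fun x : ℂ => Real.log (‖p + q * x‖ ^ 2)) 0 1 = 2 * Real.log ‖p‖ := by
  have hp : 0 < ‖p‖ := lt_of_le_of_lt (norm_nonneg _) h
  by_cases hq : q = 0
  · subst hq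
    simp only [zero_mul, add_zero, Real.log_pow]
    rw [Real.circleAverage_const]; norm_num
  · have hq0 : 0 < ‖q‖ := norm_pos_iff.mpr hq
    have e1 : Set.EqOn (fun x : ℂ => Real.log (‖p + q * x‖ ^ 2))
        (fun x : ℂ => (2 * Real.log ‖q‖) + (2 : ℝ) • Real.log ‖x - (-p / q)‖)
        (Metric.sphere 0 |1|) := by
      intro x hx
      have hx1 : ‖x‖ = 1 := by simpa using hx
      have hne : x - (-p / q) ≠ 0 := by
        intro h0
        have h1 : x = -p / q := sub_eq_zero.mp h0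
        have h2 : ‖x‖ = ‖p‖ / ‖q‖ := by rw [h1, norm_div, norm_neg]
        rw [hx1] at h2
        have : ‖p‖ = ‖q‖ := by field_simp at h2; linarith
        linarith
      have h3 : p + q * x = q * (x - (-p / q)) := by field_simp; ring
      simp only [smul_eq_mul]
      rw [h3, norm_mul, Real.log_pow, Real.log_mul hq0.ne' (norm_ne_zero_iff.mpr hne)]
      push_cast; ring
    rw [Real.circleAverage_congr_sphere e1, Real.circleAverage_fun_add,
      Real.circleAverage_const, Real.circleAverage_fun_smul,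
      show (fun x : ℂ => Real.log ‖x - -p / q‖) = (Real.log ‖· - (-p / q)‖) from rfl,
      circleAverage_log_norm_sub_const_eq_posLog, norm_div, norm_neg,
      Real.posLog_eq_log (by rw [abs_of_nonneg (by positivity)]; exact (one_le_div hq0).mpr h.le),
      Real.log_div hp.ne' hq0.ne', smul_eq_mul]
    · ring
    · exact circleIntegrable_const _ _ _
    · exact (circleIntegrable_log_norm_sub_const 1).const_smul
theorem avg_lower (a b : ℂ) {δ : ℝ} (hδ : 0 < δ) (ha : a ≠ 0) :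
    2 * Real.log ‖a‖ ≤
      Real.circleAverage (fun x : ℂ => Real.log (‖a + b * x‖ ^ 2 + δ ^ 2)) 0 1 := by
  obtain ⟨p, q, hqp, hx, hl, hu⟩ := exists_pq a b hδ
  have e1 : Set.EqOn (fun x : ℂ => Real.log (‖a + b * x‖ ^ 2 + δ ^ 2))
      (fun x : ℂ => Real.log (‖p + q * x‖ ^ 2)) (Metric.sphere 0 |1|) := by
    intro x hx'
    simp only
    rw [hx x (by simpa using hx')]
  rw [Real.circleAverage_congr_sphere e1, avg_eq hqp]
  have : Real.log ‖a‖ ≤ Real.log ‖p‖ :=
    Real.log_le_log (norm_pos_iff.mpr ha) (le_trans (le_max_left _ _) hl)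
  linarith

theorem avg_upper (a b : ℂ) {r δ : ℝ} (hr : 0 < r) (hb : ‖b‖ = r) (hδ : 0 < δ) :
    Real.circleAverage (fun x : ℂ => Real.log (‖a + b * x‖ ^ 2 + δ ^ 2)) 0 1 ≤
      2 * Real.log (max ‖a‖ r) + 2 * (δ / r) := by
  obtain ⟨p, q, hqp, hx, hl, hu⟩ := exists_pq a b hδ
  have e1 : Set.EqOn (fun x : ℂ => Real.log (‖a + b * x‖ ^ 2 + δ ^ 2))
      (fun x : ℂ => Real.log (‖p + q * x‖ ^ 2)) (Metric.sphere 0 |1|) := by
    intro x hx'
    simp only
    rw [hx x (by simpa using hx')]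
  rw [Real.circleAverage_congr_sphere e1, avg_eq hqp]
  rw [hb] at hl hu
  have hm : 0 < max ‖a‖ r := lt_of_lt_of_le hr (le_max_right _ _)
  have hp : 0 < ‖p‖ := lt_of_le_of_lt (norm_nonneg _) hqp
  have h1 : Real.log ‖p‖ ≤ Real.log (max ‖a‖ r) + δ / r := by
    calc Real.log ‖p‖ ≤ Real.log (max ‖a‖ r + δ) := Real.log_le_log hp hu
      _ = Real.log (max ‖a‖ r * (1 + δ / max ‖a‖ r)) := by congr 1; field_simp
      _ = Real.log (max ‖a‖ r) + Real.log (1 + δ / max ‖a‖ r) :=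
          Real.log_mul hm.ne' (by positivity)
      _ ≤ Real.log (max ‖a‖ r) + δ / max ‖a‖ r := by
          have := Real.log_le_sub_one_of_pos (show (0 : ℝ) < 1 + δ / max ‖a‖ r by positivity)
          linarith
      _ ≤ Real.log (max ‖a‖ r) + δ / r := by
          gcongr
          exact le_max_right _ _
  linarith

/-- integrability of the functions of `avg_lower` -/
theorem avg_int (a b : ℂ) {δ : ℝ} (hδ : 0 < δ) :
    CircleIntegrable (fun x : ℂ => Real.log (‖a + b * x‖ ^ 2 + δ ^ 2)) 0 1 := by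
  apply ContinuousOn.circleIntegrable (by norm_num)
  apply Continuous.continuousOn
  apply Continuous.log (by fun_prop)
  intro x
  positivity

end H38.ZZ
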