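import Mathlib

/-! Interval check, all in `ℕ`. Scale `2^20`, nodes `(Y, K)` in units `2^(-20)`,
fixed point `2^60` for the linear terms. The functions use `Nat.add`, .. and `List.rec` directly,
for the speed of the kernel. -/

namespace H38.ZZ

/-- sum over the nodes -/
noncomputable def sumL (f : ℕ → ℕ → ℕ) (ch : List (ℕ × ℕ)) : ℕ :=
  List.rec (motive := fun _ => ℕ) 0 (fun a _ ih => Nat.add (f a.1 a.2) ih) ch
/-- product over the nodes -/
noncomputable def prodL (f : ℕ → ℕ → ℕ) (ch : List (ℕ × ℕ)) : ℕ :=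
  List.rec (motive := fun _ => ℕ) 1 (fun a _ ih => Nat.mul (f a.1 a.2) ih) ch

/-- own factor at `C`: `max |C - Y| K` -/
def ownF (C Y K : ℕ) : ℕ := Nat.add K (Nat.sub (Nat.add (Nat.sub C Y) (Nat.sub Y C)) K)
/-- zero iff the interval `[lo, hi]` does not straddle `Y - K` or `Y + K` -/
def ownV (lo hi Y K : ℕ) : ℕ :=
  Nat.mul (Nat.mul (Nat.sub (Nat.add hi K) Y) (Nat.sub (Nat.add Y K) lo))
    (Nat.add (Nat.sub Y (Nat.add lo K)) (Nat.sub hi (Nat.add Y K)))
/-- `2^61 / D` if `K ≤ D`, else `0` -/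
def linT (D K : ℕ) : ℕ := Nat.mul (Nat.sub 1 (Nat.sub K D)) (Nat.div 2305843009213693952 D)
/-- `2^60 * (1 + y y' (y + y' - 3) + K^2)` -/
def rho (C Y K : ℕ) : ℕ :=
  Nat.sub (Nat.add (Nat.add 1152921504606846976 (Nat.mul (Nat.mul C Y) (Nat.add C Y)))
    (Nat.mul (Nat.mul K K) 1048576)) (Nat.mul 3145728 (Nat.mul C Y))
def nodeP (C Y K : ℕ) : ℕ := Nat.add (linT (Nat.sub C Y) K)
  (Nat.div (Nat.mul (Nat.mul Y (Nat.sub (Nat.add (Nat.mul 2 C) Y) 3145728)) 1152921504606846976)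
    (rho C Y K))
def nodeN (C Y K : ℕ) : ℕ := Nat.add (linT (Nat.sub Y C) K)
  (Nat.div (Nat.mul (Nat.mul Y (Nat.sub 3145728 (Nat.add (Nat.mul 2 C) Y))) 1152921504606846976)
    (rho C Y K))
def nodeT (C H Y K : ℕ) : ℕ :=
  Nat.add (Nat.div (Nat.mul (Nat.mul Y (Nat.mul H H)) 1152921504606846976) (rho C Y K)) 1

/-- Taylor shift of an integer polynomial (list of coefficients, low to high) -/
def smAux (c : ℤ) : ℤ → List ℤ → List ℤ
  | p, [] => [p]
  | p, (x :: q) => (p + c * x) :: smAux c x q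
def tay (c : ℤ) : List ℤ → List ℤ
  | [] => []
  | (a :: l) => match tay c l with
    | [] => [a]
    | (x :: q) => (a + c * x) :: smAux c x q

/-- `∑ |t_k| h^k` (Horner) -/
def absEv (h : ℕ) : List ℤ → ℕ
  | [] => 0
  | (a :: l) => a.natAbs + h * absEv h l

/-- base, positive part, negative part, tail of a polynomial factor with exponent `n` -/
def polB (H n : ℕ) : List ℤ → ℕ
  | (a :: b :: l) => cond (Nat.ble (2 * (b.natAbs * H + H * H * absEv H l) + 1) a.toNat) (a.toNat ^ n)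
      ((a.natAbs + b.natAbs * H + H * H * absEv H l) ^ n)
  | _ => 0
def polP (H n : ℕ) : List ℤ → ℕ
  | (a :: b :: l) => cond (Nat.ble (2 * (b.natAbs * H + H * H * absEv H l) + 1) a.toNat)
      ((n * b.toNat * 1152921504606846976) / a.toNat) 0
  | _ => 0
def polN (H n : ℕ) : List ℤ → ℕ
  | (a :: b :: l) => cond (Nat.ble (2 * (b.natAbs * H + H * H * absEv H l) + 1) a.toNat)
      ((n * (-b).toNat * 1152921504606846976) / a.toNat) 0
  | _ => 0
def polT (H n : ℕ) : List ℤ → ℕ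
  | (a :: b :: l) => cond (Nat.ble (2 * (b.natAbs * H + H * H * absEv H l) + 1) a.toNat)
      ((n * (H * H * absEv H l) * 1152921504606846976) / a.toNat + 1) 0
  | _ => 0

/-- linear factor `|y - γ|^n` (γ = 0 or 1), `D = |C - Γ|` -/
def linB (H D n : ℕ) : ℕ := cond (Nat.ble (4 * H) D) (D ^ n) ((D + H) ^ n)
def linS (H D n : ℕ) : ℕ := cond (Nat.ble (4 * H) D) ((n * 1152921504606846976) / D) 0

/-- `|a - b|` -/
def dst (a b : ℕ) : ℕ := Nat.add (Nat.sub a b) (Nat.sub b a)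

/-- exponent check: `pos`, `neg`, `tail` against `k * 2^60 + u * 2^44` -/
def expOK (H M pos neg tail k u : ℕ) : Bool :=
  Nat.ble (Nat.add (Nat.mul (Nat.add (dst pos neg) (Nat.add (Nat.mul 2 M) 8)) H) tail)
    (Nat.add (Nat.mul k 1152921504606846976) (Nat.mul u 17592186044416))

/-- check of one interval `[C - H, C + H] ⊆ [0, 1]` -/
noncomputable def chkL (n1 n2 n3 n4 n5 L c2n M : ℕ) (t1 t2 t3 : List ℤ)
    (ch : List (ℕ × ℕ)) (C H k u : ℕ) : Bool :=
  Nat.ble H C && Nat.ble 1 H && Nat.ble (Nat.add C H) 1048576 &&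
  Nat.ble (sumL (ownV (Nat.sub C H) (Nat.add C H)) ch) 0 && Nat.ble u 65536 &&
  expOK H M (linS H C n1 + polP H n3 t1 + polP H n4 t2 + polP H n5 t3 + sumL (nodeP C) ch)
      (linS H (dst C 1048576) (2 * n2) + polN H n3 t1 + polN H n4 t2 + polN H n5 t3
        + sumL (nodeN C) ch)
      (polT H n3 t1 + polT H n4 t2 + polT H n5 t3 + sumL (nodeT C H) ch) k u &&
  Nat.ble (linB H C n1 * linB H (dst C 1048576) (2 * n2) * polB H n3 t1 * polB H n4 t2
      * polB H n5 t3 * prodL (ownF C) ch ^ 2 * prodL (rho C) ch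
      * (4294967296 + u * 65536 + u * u) * 3 ^ k * 2 ^ L)
    (c2n * 4294967296 * 1048576 ^ (n1 + 2 * n2 + 8 * n3 + 16 * n4 + 6 * n5 + 5 * M))

/-- check of one interval `[C - H, C + H]` to the right of `1` -/
noncomputable def chkR (n1 n2 n3 n4 n5 N L c2n M : ℕ) (t1 t2 t3 : List ℤ)
    (ch : List (ℕ × ℕ)) (C H k u : ℕ) : Bool :=
  Nat.ble (Nat.add 1048576 H) C && Nat.ble 1 H && Nat.ble (2 * H) C &&
  Nat.ble (sumL (ownV (Nat.sub C H) (Nat.add C H)) ch) 0 && Nat.ble u 65536 &&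
  expOK H M (linS H (dst C 1048576) (2 * n2) + polP H n3 t1 + polP H n4 t2 + polP H n5 t3
        + sumL (nodeP C) ch)
      (((N - n1) * 1152921504606846976) / C + polN H n3 t1 + polN H n4 t2 + polN H n5 t3
        + sumL (nodeN C) ch)
      (((N - n1) * H * H * 1152921504606846976) / (C * C) + 1
        + polT H n3 t1 + polT H n4 t2 + polT H n5 t3 + sumL (nodeT C H) ch) k u &&
  Nat.ble (linB H (dst C 1048576) (2 * n2) * polB H n3 t1 * polB H n4 t2
      * polB H n5 t3 * prodL (ownF C) ch ^ 2 * prodL (rho C) ch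
      * (4294967296 + u * 65536 + u * u) * 3 ^ k * 2 ^ L * 1048576 ^ (N - n1))
    (c2n * C ^ (N - n1) * 4294967296
      * 1048576 ^ (2 * n2 + 8 * n3 + 16 * n4 + 6 * n5 + 5 * M))

/-- the whole parameter set: check of one interval `(C, H, k, u)` -/
noncomputable def ckI (n1 n2 n3 n4 n5 N L c2n M : ℕ) (b1 b2 b3 : List ℤ) (ch : List (ℕ × ℕ))
    (C H k u : ℕ) : Bool :=
  cond (Nat.ble (Nat.add C H) 1048576)
    (chkL n1 n2 n3 n4 n5 L c2n M (tay C b1) (tay C b2) (tay C b3) ch C H k u)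
    (chkR n1 n2 n3 n4 n5 N L c2n M (tay C b1) (tay C b2) (tay C b3) ch C H k u)

/-- check of a chain of intervals `(C, H, k, u)` covering `[lo, hi]` -/
noncomputable def ckC (n1 n2 n3 n4 n5 N L c2n M : ℕ) (b1 b2 b3 : List ℤ) (ch : List (ℕ × ℕ))
    (hi : ℕ) : List (ℕ × ℕ × ℕ × ℕ) → ℕ → Bool
  | [], lo => Nat.ble hi lo
  | (a :: l), lo => Nat.ble a.1 (lo + a.2.1) &&
      ckI n1 n2 n3 n4 n5 N L c2n M b1 b2 b3 ch a.1 a.2.1 a.2.2.1 a.2.2.2 &&
      ckC n1 n2 n3 n4 n5 N L c2n M b1 b2 b3 ch hi l (a.1 + a.2.1)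

end H38.ZZ
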