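import Pool.Agent.H79.ZZ.Pol
import Pool.Agent.H1.ZZ.Snd

/-! Coverage: soundness of the check of a chain of intervals. -/

namespace H38.ZZ

theorem ckI_sound (n1 n2 n3 n4 n5 N L c2n M : ℕ) (hN : n1 ≤ N) (b1 b2 b3 : List ℤ)
    (h1 : 2 ≤ b1.length) (h2 : 2 ≤ b2.length) (h3 : 2 ≤ b3.length) (ch : List (ℕ × ℕ))
    (hM : ch.length = M) (hK : ∀ a ∈ ch, 1 ≤ a.2) (C H k u : ℕ)
    (h : ckI n1 n2 n3 n4 n5 N L c2n M b1 b2 b3 ch C H k u = true) (X : ℝ) (hX0 : 0 ≤ X)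
    (hX : |X - C| ≤ H) :
    X ^ n1 * |X - 1048576| ^ (2 * n2) * |evL b1 X| ^ n3 * |evL b2 X| ^ n4 * |evL b3 X| ^ n5
        * (ch.map (nodeR X)).prod * 2 ^ L * 1048576 ^ N ≤
      c2n * (max 1048576 X) ^ N
        * 1048576 ^ (n1 + 2 * n2 + 8 * n3 + 16 * n4 + 6 * n5 + 5 * M) := by
  have hXC : (C : ℝ) + (X - C) = X := by ring
  have e1 : evL (tay C b1) (X - C) = evL b1 X := by
    rw [H79.ZZ.tay_eval, Int.cast_natCast, hXC]
  have e2 : evL (tay C b2) (X - C) = evL b2 X := by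
    rw [H79.ZZ.tay_eval, Int.cast_natCast, hXC]
  have e3 : evL (tay C b3) (X - C) = evL b3 X := by
    rw [H79.ZZ.tay_eval, Int.cast_natCast, hXC]
  have hle : (1048576 : ℝ) ≤ max 1048576 X := le_max_left _ _
  have hle' : X ≤ max 1048576 X := le_max_right _ _
  unfold ckI at h
  cases hb : Nat.ble (Nat.add C H) 1048576 with
  | true =>
    rw [hb] at h
    simp only [cond_true] at h
    have h4 := H1.ZZ.chkL_sound n1 n2 n3 n4 n5 L c2n M (tay C b1) (tay C b2) (tay C b3)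
      (by rw [H79.ZZ.tay_length]; exact h1) (by rw [H79.ZZ.tay_length]; exact h2)
      (by rw [H79.ZZ.tay_length]; exact h3) ch hM hK C H k u h (X - C) hX
    rw [e1, e2, e3, hXC] at h4
    calc _ ≤ (c2n * 1048576 ^ (n1 + 2 * n2 + 8 * n3 + 16 * n4 + 6 * n5 + 5 * M) : ℝ)
          * 1048576 ^ N := mul_le_mul_of_nonneg_right h4 (by positivity)
      _ ≤ (c2n * 1048576 ^ (n1 + 2 * n2 + 8 * n3 + 16 * n4 + 6 * n5 + 5 * M) : ℝ)
          * (max 1048576 X) ^ N :=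
        mul_le_mul_of_nonneg_left (pow_le_pow_left₀ (by norm_num) hle N) (by positivity)
      _ = _ := by ring
  | false =>
    rw [hb] at h
    simp only [cond_false] at h
    have h4 := H1.ZZ.chkR_sound n1 n2 n3 n4 n5 N L c2n M (tay C b1) (tay C b2) (tay C b3)
      (by rw [H79.ZZ.tay_length]; exact h1) (by rw [H79.ZZ.tay_length]; exact h2)
      (by rw [H79.ZZ.tay_length]; exact h3) ch hM hK C H k u h (X - C) hX
    rw [e1, e2, e3, hXC] at h4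
    obtain ⟨d, rfl⟩ := Nat.exists_eq_add_of_le hN
    rw [Nat.add_sub_cancel_left] at h4
    calc _ = X ^ n1 * 1048576 ^ n1 * (|X - 1048576| ^ (2 * n2) * |evL b1 X| ^ n3
            * |evL b2 X| ^ n4 * |evL b3 X| ^ n5 * (ch.map (nodeR X)).prod * 2 ^ L
            * 1048576 ^ d) := by rw [pow_add (1048576 : ℝ) n1 d]; ring
      _ ≤ X ^ n1 * 1048576 ^ n1 * (c2n * X ^ d
            * 1048576 ^ (2 * n2 + 8 * n3 + 16 * n4 + 6 * n5 + 5 * M)) :=
        mul_le_mul_of_nonneg_left h4 (by positivity)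
      _ = (c2n * 1048576 ^ (n1 + 2 * n2 + 8 * n3 + 16 * n4 + 6 * n5 + 5 * M)) * X ^ (n1 + d) := by
        have : n1 + 2 * n2 + 8 * n3 + 16 * n4 + 6 * n5 + 5 * M
          = n1 + (2 * n2 + 8 * n3 + 16 * n4 + 6 * n5 + 5 * M) := by ring
        rw [this, pow_add (1048576 : ℝ) n1 (2 * n2 + 8 * n3 + 16 * n4 + 6 * n5 + 5 * M),
          pow_add X n1 d]
        ring
      _ ≤ (c2n * 1048576 ^ (n1 + 2 * n2 + 8 * n3 + 16 * n4 + 6 * n5 + 5 * M))
            * (max 1048576 X) ^ (n1 + d) :=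
        mul_le_mul_of_nonneg_left (pow_le_pow_left₀ hX0 hle' _) (by positivity)
      _ = _ := by ring

theorem ckC_sound (n1 n2 n3 n4 n5 N L c2n M : ℕ) (hN : n1 ≤ N) (b1 b2 b3 : List ℤ)
    (h1 : 2 ≤ b1.length) (h2 : 2 ≤ b2.length) (h3 : 2 ≤ b3.length) (ch : List (ℕ × ℕ))
    (hM : ch.length = M) (hK : ∀ a ∈ ch, 1 ≤ a.2) (hi : ℕ) (l : List (ℕ × ℕ × ℕ × ℕ)) (lo : ℕ)
    (h : ckC n1 n2 n3 n4 n5 N L c2n M b1 b2 b3 ch hi l lo = true) (X : ℝ) (hX : (lo : ℝ) < X)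
    (hX2 : X ≤ hi) :
    X ^ n1 * |X - 1048576| ^ (2 * n2) * |evL b1 X| ^ n3 * |evL b2 X| ^ n4 * |evL b3 X| ^ n5
        * (ch.map (nodeR X)).prod * 2 ^ L * 1048576 ^ N ≤
      c2n * (max 1048576 X) ^ N
        * 1048576 ^ (n1 + 2 * n2 + 8 * n3 + 16 * n4 + 6 * n5 + 5 * M) := by
  induction l generalizing lo with
  | nil =>
    exfalso
    unfold ckC at h
    have h4 : hi ≤ lo := Nat.le_of_ble_eq_true h
    have h5 : (hi : ℝ) ≤ lo := by exact_mod_cast h4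
    linarith
  | cons a l ih =>
    unfold ckC at h
    rw [Bool.and_eq_true, Bool.and_eq_true] at h
    obtain ⟨⟨h4, h5⟩, h6⟩ := h
    have h7 : a.1 ≤ lo + a.2.1 := Nat.le_of_ble_eq_true h4
    have h8 : (a.1 : ℝ) ≤ lo + a.2.1 := by exact_mod_cast h7
    have hX0 : 0 ≤ X := le_trans (Nat.cast_nonneg lo) hX.le
    by_cases h9 : X ≤ a.1 + a.2.1
    · refine ckI_sound n1 n2 n3 n4 n5 N L c2n M hN b1 b2 b3 h1 h2 h3 ch hM hK a.1 a.2.1 a.2.2.1
        a.2.2.2 h5 X hX0 ?_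
      rw [abs_le]
      constructor <;> linarith
    · push Not at h9
      refine ih (a.1 + a.2.1) h6 ?_
      push_cast
      exact h9

end H38.ZZ
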