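import Pool.Agent.H38.ZZ.Dat

/-! Part of the interval check. -/

namespace H38.ZZ

def l01_1 : List (ℕ × ℕ × ℕ × ℕ) :=
  [(50291, 50291, 349, 29657), (125728, 25146, 357, 11089), (163447, 12573, 100, 2886), (188592, 12572, 57, 54465),
   (204064, 2900, 6, 41503), (209428, 2464, 3, 17238), (213804, 1912, 0, 12219), (215802, 86, 0, 7348),
   (216688, 800, 0, 6217), (217950, 462, 0, 1134)]

theorem d01_1 : ckD 218412 l01_1 0 = true := by decide +kernel

def l01_2 : List (ℕ × ℕ × ℕ × ℕ) :=
  [(219112, 700, 0, 6851), (220254, 442, 0, 1771), (221336, 640, 0, 4051), (222364, 388, 0, 1590),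
   (223348, 596, 0, 6025), (224336, 392, 0, 1988), (225292, 564, 0, 3339), (226210, 354, 0, 1792),
   (227104, 540, 0, 5053), (228000, 356, 0, 2147)]

theorem d01_2 : ckD 228356 l01_2 218412 = true := by decide +kernel

def l01_3 : List (ℕ × ℕ × ℕ × ℕ) :=
  [(228880, 524, 0, 2799), (229730, 326, 0, 1400), (230560, 504, 0, 4572), (231400, 336, 0, 1593),
   (232224, 488, 0, 2328), (233024, 312, 0, 1512), (233812, 476, 0, 3925), (234604, 316, 0, 1838),
   (235388, 468, 0, 2413), (236158, 302, 0, 1020)]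

theorem d01_3 : ckD 236460 l01_3 228356 = true := by decide +kernel

def l01_4 : List (ℕ × ℕ × ℕ × ℕ) :=
  [(236916, 456, 0, 2512), (237664, 292, 0, 1831), (238408, 452, 0, 3423), (239158, 298, 0, 882),
   (239896, 440, 0, 1416), (240618, 282, 0, 984), (241332, 432, 0, 2919), (242050, 286, 0, 1507),
   (242764, 428, 0, 2127), (243474, 282, 0, 677)]

theorem d01_4 : ckD 243756 l01_4 236460 = true := by decide +kernel

def l01_5 : List (ℕ × ℕ × ℕ × ℕ) :=
  [(244176, 420, 0, 1249), (244866, 270, 0, 1062), (245552, 416, 0, 2555), (246242, 274, 0, 1157),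
   (246928, 412, 0, 1631), (247608, 268, 0, 797), (248284, 408, 0, 1293), (248952, 260, 0, 886),
   (249616, 404, 0, 2263), (250286, 266, 0, 779)]

theorem d01_5 : ckD 250552 l01_5 243756 = true := by decide +kernel

def l01_6 : List (ℕ × ℕ × ℕ × ℕ) :=
  [(250952, 400, 0, 867), (251612, 260, 0, 161), (252264, 392, 0, 877), (252910, 254, 0, 1012),
   (253556, 392, 0, 1988), (254208, 260, 0, 515), (254856, 388, 0, 460), (255496, 252, 0, 175),
   (256132, 384, 0, 800), (256764, 248, 0, 762)]

theorem d01_6 : ckD 257012 l01_6 250552 = true := by decide +kernel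

def l01_7 : List (ℕ × ℕ × ℕ × ℕ) :=
  [(257396, 384, 0, 1354), (258030, 250, 0, 339), (258660, 380, 0, 774), (259290, 250, 0, 197),
   (259916, 376, 0, 366), (260536, 244, 0, 170), (261152, 372, 0, 1036), (261770, 246, 0, 898),
   (262392, 376, 0, 366), (263010, 242, 0, 475)]

theorem d01_7 : ckD 263252 l01_7 257012 = true := by decide +kernel

def l01_8 : List (ℕ × ℕ × ℕ × ℕ) :=
  [(263624, 372, 0, 701), (264234, 238, 0, 481), (264840, 368, 0, 490), (265448, 240, 0, 256),
   (266056, 368, 0, 341), (266666, 242, 0, 720), (267272, 364, 0, 1204), (267872, 236, 0, 452),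
   (268472, 364, 0, 773), (269070, 234, 0, 301)]

theorem d01_8 : ckD 269304 l01_8 263252 = true := by decide +kernel

def l01_9 : List (ℕ × ℕ × ℕ × ℕ) :=
  [(269668, 364, 0, 502), (270270, 238, 0, 911), (270868, 360, 0, 1342), (271466, 238, 0, 1235),
   (272060, 356, 0, 1599), (272652, 236, 0, 820), (273244, 356, 0, 1270), (273836, 236, 0, 522),
   (274432, 360, 0, 1998)]

theorem d01_9 : ckD 274792 l01_9 269304 = true := by decide +kernel

end H38.ZZ
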