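import Pool.Agent.H38.ZZ.Dat

/-! Part of the interval check. -/

namespace H38.ZZ

def l02_1 : List (ℕ × ℕ × ℕ × ℕ) :=
  [(275026, 234, 0, 1727), (275616, 356, 0, 2496), (276204, 232, 0, 1380), (276792, 356, 0, 2190),
   (277382, 234, 0, 1468), (277972, 356, 0, 2616), (278562, 234, 0, 1648), (279152, 356, 0, 2646),
   (279746, 238, 0, 1675), (280344, 360, 0, 3905)]

theorem d02_1 : ckD 280704 l02_1 274792 = true := by decide +kernel

def l02_2 : List (ℕ × ℕ × ℕ × ℕ) :=
  [(280942, 238, 0, 2594), (281544, 364, 0, 5743), (282146, 238, 0, 4234), (282748, 364, 0, 8089),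
   (283348, 236, 0, 6040), (283940, 356, 0, 9011), (284526, 230, 0, 5093), (285108, 352, 0, 6315),
   (285682, 222, 0, 1649), (286012, 108, 0, 9672)]

theorem d02_2 : ckD 286120 l02_2 280704 = true := by decide +kernel

def l02_3 : List (ℕ × ℕ × ℕ × ℕ) :=
  [(286384, 264, 0, 25041), (287246, 598, 1, 3491), (288442, 598, 1, 16773), (289709, 669, 3, 240),
   (291046, 668, 0, 59627), (293051, 1337, 0, 34725), (295204, 816, 1, 5126), (296836, 816, 2, 16595),
   (297712, 60, 0, 903), (298368, 596, 0, 49024)]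

theorem d02_3 : ckD 298964 l02_3 286120 = true := by decide +kernel

def l02_4 : List (ℕ × ℕ × ℕ × ℕ) :=
  [(299244, 280, 0, 2330), (299960, 436, 0, 6403), (300644, 248, 0, 4638), (301260, 368, 0, 2849),
   (301842, 214, 0, 974), (302400, 344, 0, 5802), (302970, 226, 0, 4396), (303544, 348, 0, 6201),
   (304116, 224, 0, 3275), (304684, 344, 0, 5153)]

theorem d02_4 : ckD 305028 l02_4 298964 = true := by decide +kernel

def l02_5 : List (ℕ × ℕ × ℕ × ℕ) :=
  [(305248, 220, 0, 2932), (305808, 340, 0, 5232), (306368, 220, 0, 3287), (306928, 340, 0, 5001),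
   (307490, 222, 0, 2514), (308048, 336, 0, 4139), (308610, 226, 0, 1812), (309168, 332, 0, 2313),
   (309716, 216, 0, 1915), (310264, 332, 0, 3294)]

theorem d02_5 : ckD 310596 l02_5 305028 = true := by decide +kernel

def l02_6 : List (ℕ × ℕ × ℕ × ℕ) :=
  [(310812, 216, 0, 2170), (311360, 332, 0, 3483), (311912, 220, 0, 1574), (312460, 328, 0, 2715),
   (313006, 218, 0, 2147), (313556, 332, 0, 2241), (314102, 214, 0, 1088), (314644, 328, 0, 2489),
   (315188, 216, 0, 1594), (315732, 328, 0, 2402)]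

theorem d02_6 : ckD 316060 l02_6 310596 = true := by decide +kernel

def l02_7 : List (ℕ × ℕ × ℕ × ℕ) :=
  [(316276, 216, 0, 1485), (316820, 328, 0, 2157), (317364, 216, 0, 1258), (317908, 328, 0, 1600),
   (318450, 214, 0, 737), (318988, 324, 0, 2082), (319530, 218, 0, 1260), (320072, 324, 0, 1765),
   (320614, 218, 0, 1052), (321156, 324, 0, 1357)]

theorem d02_7 : ckD 321480 l02_7 316060 = true := by decide +kernel

def l02_8 : List (ℕ × ℕ × ℕ × ℕ) :=
  [(321696, 216, 0, 926), (322236, 324, 0, 1404), (322774, 214, 0, 1334), (323316, 328, 0, 1205),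
   (323854, 210, 0, 870), (324392, 328, 0, 1578), (324932, 212, 0, 885), (325472, 328, 0, 1290),
   (326014, 214, 0, 276), (326552, 324, 0, 1067)]

theorem d02_8 : ckD 326876 l02_8 321480 = true := by decide +kernel

def l02_9 : List (ℕ × ℕ × ℕ × ℕ) :=
  [(327092, 216, 0, 609), (327632, 324, 0, 765), (328170, 214, 0, 590), (328708, 324, 0, 1089),
   (329248, 216, 0, 580), (329788, 324, 0, 772), (330328, 216, 0, 406), (330868, 324, 0, 464),
   (331404, 212, 0, 865)]

theorem d02_9 : ckD 331616 l02_9 326876 = true := by decide +kernel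

end H38.ZZ
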