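import Pool.Agent.H38.ZZ.Dat

/-! Part of the interval check. -/

namespace H38.ZZ

def l03_1 : List (ℕ × ℕ × ℕ × ℕ) :=
  [(331944, 328, 0, 824), (332484, 212, 0, 400), (333024, 328, 0, 562), (333564, 212, 0, 290),
   (334104, 328, 0, 433), (334644, 212, 0, 223), (335184, 328, 0, 356), (335724, 212, 0, 189),
   (336264, 328, 0, 341), (336804, 212, 0, 216)]

theorem d03_1 : ckD 337016 l03_1 331616 = true := by decide +kernel

def l03_2 : List (ℕ × ℕ × ℕ × ℕ) :=
  [(337344, 328, 0, 504), (337886, 214, 0, 179), (338428, 328, 0, 233), (338970, 214, 0, 100),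
   (339512, 328, 0, 261), (340056, 216, 0, 160), (340600, 328, 0, 525), (341140, 212, 0, 392),
   (341684, 332, 0, 172), (342228, 212, 0, 135)]

theorem d03_2 : ckD 342440 l03_2 337016 = true := by decide +kernel

def l03_3 : List (ℕ × ℕ × ℕ × ℕ) :=
  [(342772, 332, 0, 207), (343318, 214, 0, 232), (343864, 332, 0, 516), (344410, 214, 0, 304),
   (344956, 332, 0, 433), (345504, 216, 0, 349), (346052, 332, 0, 598), (346602, 218, 0, 531),
   (347152, 332, 0, 1081), (347700, 216, 0, 515)]

theorem d03_3 : ckD 347916 l03_3 342440 = true := by decide +kernel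

def l03_4 : List (ℕ × ℕ × ℕ × ℕ) :=
  [(348248, 332, 0, 504), (348800, 220, 0, 433), (349352, 332, 0, 637), (349906, 222, 0, 233),
   (350464, 336, 0, 1463), (351018, 218, 0, 828), (351572, 336, 0, 1152), (352128, 220, 0, 718),
   (352684, 336, 0, 926), (353242, 222, 0, 267)]

theorem d03_4 : ckD 353464 l03_4 347916 = true := by decide +kernel

def l03_5 : List (ℕ × ℕ × ℕ × ℕ) :=
  [(353804, 340, 0, 1101), (354368, 224, 0, 928), (354932, 340, 0, 1599), (355498, 226, 0, 1191),
   (356064, 340, 0, 1977), (356630, 226, 0, 1209), (357196, 340, 0, 1589), (357762, 226, 0, 166),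
   (358336, 348, 0, 1361), (358912, 228, 0, 818)]

theorem d03_5 : ckD 359140 l03_5 353464 = true := by decide +kernel

def l03_6 : List (ℕ × ℕ × ℕ × ℕ) :=
  [(359492, 352, 0, 2271), (360072, 228, 0, 1573), (360652, 352, 0, 2511), (361234, 230, 0, 1573),
   (361816, 352, 0, 2101), (362402, 234, 0, 978), (362992, 356, 0, 1654), (363590, 242, 0, 955),
   (364196, 364, 0, 3336), (364800, 240, 0, 2330)]

theorem d03_6 : ckD 365040 l03_6 359140 = true := by decide +kernel

def l03_7 : List (ℕ × ℕ × ℕ × ℕ) :=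
  [(365404, 364, 0, 3587), (366006, 238, 0, 1227), (366616, 372, 0, 2222), (367234, 246, 0, 722),
   (367864, 384, 0, 2691), (368506, 258, 0, 2199), (369156, 392, 0, 5636), (369804, 256, 0, 3795),
   (370452, 392, 0, 5647), (371094, 250, 0, 1017)]

theorem d03_7 : ckD 371344 l03_7 365040 = true := by decide +kernel

def l03_8 : List (ℕ × ℕ × ℕ × ℕ) :=
  [(371756, 412, 0, 2083), (372454, 286, 0, 1613), (373176, 436, 0, 7126), (373904, 292, 0, 5430),
   (374330, 134, 0, 6209), (374770, 306, 0, 6992), (375328, 252, 0, 9927), (376100, 520, 0, 20795),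
   (377018, 398, 0, 16085), (378072, 656, 0, 17038)]

theorem d03_8 : ckD 378728 l03_8 371344 = true := by decide +kernel

def l03_9 : List (ℕ × ℕ × ℕ × ℕ) :=
  [(378970, 242, 0, 24892), (379454, 242, 0, 5567), (379938, 242, 0, 7857), (380421, 241, 0, 17235),
   (381629, 967, 2, 19835), (384530, 1934, 9, 36567), (399310, 12846, 2, 42148), (414655, 2499, 16, 33610),
   (418404, 1250, 4, 5227)]

theorem d03_9 : ckD 419654 l03_9 378728 = true := by decide +kernel

end H38.ZZ
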