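import Pool.Agent.H38.ZZ.Dat

/-! Part of the interval check. -/

namespace H38.ZZ

def l04_1 : List (ℕ × ℕ × ℕ × ℕ) :=
  [(420903, 1249, 1, 20848), (423136, 984, 0, 19602), (424416, 296, 0, 23240), (424986, 274, 0, 970),
   (425538, 278, 0, 16208), (426086, 270, 0, 6227), (426816, 460, 0, 4726), (427578, 302, 0, 3293),
   (428332, 452, 0, 5828), (429094, 310, 0, 1036)]

theorem d04_1 : ckD 429404 l04_1 419654 = true := by decide +kernel

def l04_2 : List (ℕ × ℕ × ℕ × ℕ) :=
  [(429836, 432, 0, 1354), (430536, 268, 0, 402), (431220, 416, 0, 3167), (431902, 266, 0, 2143),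
   (432580, 412, 0, 4235), (433262, 270, 0, 1926), (433940, 408, 0, 2448), (434616, 268, 0, 461),
   (435280, 396, 0, 815), (435928, 252, 0, 274)]

theorem d04_2 : ckD 436180 l04_2 429404 = true := by decide +kernel

def l04_3 : List (ℕ × ℕ × ℕ × ℕ) :=
  [(436568, 388, 0, 1889), (437208, 252, 0, 1447), (437848, 388, 0, 2539), (438492, 256, 0, 925),
   (439132, 384, 0, 1466), (439772, 256, 0, 250), (440408, 380, 0, 596), (441034, 246, 0, 177),
   (441656, 376, 0, 1198), (442280, 248, 0, 772)]

theorem d04_3 : ckD 442528 l04_3 436180 = true := by decide +kernel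

def l04_4 : List (ℕ × ℕ × ℕ × ℕ) :=
  [(442904, 376, 0, 1216), (443528, 248, 0, 620), (444152, 376, 0, 714), (444776, 248, 0, 358),
   (445396, 372, 0, 439), (446012, 244, 0, 230), (446628, 372, 0, 567), (447244, 244, 0, 347),
   (447860, 372, 0, 668), (448478, 246, 0, 199)]

theorem d04_4 : ckD 448724 l04_4 442528 = true := by decide +kernel

def l04_5 : List (ℕ × ℕ × ℕ × ℕ) :=
  [(449096, 372, 0, 410), (449712, 244, 0, 240), (450328, 372, 0, 606), (450944, 244, 0, 695),
   (451556, 368, 0, 445), (452170, 246, 0, 219), (452784, 368, 0, 293), (453400, 248, 0, 263),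
   (454016, 368, 0, 543), (454630, 246, 0, 268)]

theorem d04_5 : ckD 454876 l04_5 448724 = true := by decide +kernel

def l04_6 : List (ℕ × ℕ × ℕ × ℕ) :=
  [(455248, 372, 0, 516), (455866, 246, 0, 420), (456484, 372, 0, 797), (457102, 246, 0, 495),
   (457720, 372, 0, 734), (458340, 248, 0, 546), (458960, 372, 0, 919), (459578, 246, 0, 104),
   (460200, 376, 0, 608), (460824, 248, 0, 512)]

theorem d04_6 : ckD 461072 l04_6 454876 = true := by decide +kernel

def l04_7 : List (ℕ × ℕ × ℕ × ℕ) :=
  [(461448, 376, 0, 839), (462072, 248, 0, 204), (462700, 380, 0, 975), (463328, 248, 0, 686),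
   (463956, 380, 0, 1110), (464584, 248, 0, 571), (465212, 380, 0, 506), (465844, 252, 0, 122),
   (466480, 384, 0, 618), (467120, 256, 0, 726)]

theorem d04_7 : ckD 467376 l04_7 461072 = true := by decide +kernel

def l04_8 : List (ℕ × ℕ × ℕ × ℕ) :=
  [(467760, 384, 0, 1466), (468398, 254, 0, 825), (469036, 384, 0, 1025), (469672, 252, 0, 484),
   (470316, 392, 0, 252), (470966, 258, 0, 445), (471616, 392, 0, 787), (472268, 260, 0, 309),
   (472924, 396, 0, 1171), (473580, 260, 0, 778)]

theorem d04_8 : ckD 473840 l04_8 467376 = true := by decide +kernel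

def l04_9 : List (ℕ × ℕ × ℕ × ℕ) :=
  [(474236, 396, 0, 1076), (474894, 262, 0, 549), (475552, 396, 0, 261), (476216, 268, 0, 584),
   (476888, 404, 0, 526), (477562, 270, 0, 320), (478240, 408, 0, 1357), (478916, 268, 0, 785),
   (479592, 408, 0, 904)]

theorem d04_9 : ckD 480000 l04_9 473840 = true := by decide +kernel

end H38.ZZ
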