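import Pool.Agent.H38.ZZ.Dat

/-! Part of the interval check. -/

namespace H38.ZZ

def l05_1 : List (ℕ × ℕ × ℕ × ℕ) :=
  [(480268, 268, 0, 549), (480952, 416, 0, 532), (481642, 274, 0, 275), (482336, 420, 0, 600),
   (483034, 278, 0, 620), (483732, 420, 0, 1135), (484430, 278, 0, 579), (485128, 420, 0, 552),
   (485826, 278, 0, 828), (486532, 428, 0, 916)]

theorem d05_1 : ckD 486960 l05_1 480000 = true := by decide +kernel

def l05_2 : List (ℕ × ℕ × ℕ × ℕ) :=
  [(487244, 284, 0, 231), (487956, 428, 0, 441), (488670, 286, 0, 177), (489384, 428, 0, 392),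
   (490098, 286, 0, 282), (490812, 428, 0, 792), (491528, 288, 0, 470), (492244, 428, 0, 872),
   (492956, 284, 0, 1085), (493672, 432, 0, 1618)]

theorem d05_2 : ckD 494104 l05_2 486960 = true := by decide +kernel

def l05_3 : List (ℕ × ℕ × ℕ × ℕ) :=
  [(494390, 286, 0, 884), (495108, 432, 0, 1302), (495824, 284, 0, 794), (496540, 432, 0, 1151),
   (497254, 282, 0, 431), (497964, 428, 0, 1176), (498670, 278, 0, 1002), (499376, 428, 0, 1908),
   (500082, 278, 0, 1235), (500788, 428, 0, 2042)]

theorem d05_3 : ckD 501216 l05_3 494104 = true := by decide +kernel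

def l05_4 : List (ℕ × ℕ × ℕ × ℕ) :=
  [(501498, 282, 0, 629), (502204, 424, 0, 822), (502902, 274, 0, 504), (503596, 420, 0, 1624),
   (504290, 274, 0, 1163), (504984, 420, 0, 1972), (505678, 274, 0, 1201), (506372, 420, 0, 1788),
   (507068, 276, 0, 537), (507760, 416, 0, 810)]

theorem d05_4 : ckD 508176 l05_4 501216 = true := by decide +kernel

def l05_5 : List (ℕ × ℕ × ℕ × ℕ) :=
  [(508444, 268, 0, 823), (509128, 416, 0, 1599), (509814, 270, 0, 667), (510496, 412, 0, 1672),
   (511180, 272, 0, 1008), (511864, 412, 0, 1470), (512548, 272, 0, 769), (513232, 412, 0, 807),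
   (513912, 268, 0, 300), (514588, 408, 0, 1216)]

theorem d05_5 : ckD 514996 l05_5 508176 = true := by decide +kernel

def l05_6 : List (ℕ × ℕ × ℕ × ℕ) :=
  [(515266, 270, 0, 785), (515944, 408, 0, 1255), (516622, 270, 0, 778), (517300, 408, 0, 1248),
   (517980, 272, 0, 593), (518660, 408, 0, 589), (519336, 268, 0, 456), (520012, 408, 0, 821),
   (520688, 268, 0, 534), (521364, 408, 0, 965)]

theorem d05_6 : ckD 521772 l05_6 514996 = true := by decide +kernel

def l05_7 : List (ℕ × ℕ × ℕ × ℕ) :=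
  [(522042, 270, 0, 493), (522720, 408, 0, 696), (523398, 270, 0, 376), (524076, 408, 0, 570),
   (524754, 270, 0, 330), (525432, 408, 0, 600), (526110, 270, 0, 610), (526792, 412, 0, 239),
   (527470, 266, 0, 232), (528148, 412, 0, 677)]

theorem d05_7 : ckD 528560 l05_7 521772 = true := by decide +kernel

def l05_8 : List (ℕ × ℕ × ℕ × ℕ) :=
  [(528830, 270, 0, 268), (529512, 412, 0, 428), (530196, 272, 0, 109), (530880, 412, 0, 166),
   (531564, 272, 0, 99), (532248, 412, 0, 138), (532934, 274, 0, 138), (533620, 412, 0, 262),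
   (534306, 274, 0, 82), (534992, 412, 0, 389)]

theorem d05_8 : ckD 535404 l05_8 528560 = true := by decide +kernel

def l05_9 : List (ℕ × ℕ × ℕ × ℕ) :=
  [(535680, 276, 0, 716), (536376, 420, 0, 427), (537068, 272, 0, 282), (537760, 420, 0, 391),
   (538454, 274, 0, 281), (539148, 420, 0, 360), (539844, 276, 0, 220), (540540, 420, 0, 124),
   (541238, 278, 0, 540)]

theorem d05_9 : ckD 541516 l05_9 535404 = true := by decide +kernel

end H38.ZZ
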