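import Pool.Agent.H38.ZZ.Dat

/-! Part of the interval check. -/

namespace H38.ZZ

def l06_1 : List (ℕ × ℕ × ℕ × ℕ) :=
  [(541944, 428, 0, 564), (542648, 276, 0, 464), (543352, 428, 0, 753), (544058, 278, 0, 554),
   (544764, 428, 0, 859), (545470, 278, 0, 400), (546176, 428, 0, 109), (546890, 286, 0, 65),
   (547608, 432, 0, 859), (548326, 286, 0, 713)]

theorem d06_1 : ckD 548612 l06_1 541516 = true := by decide +kernel

def l06_2 : List (ℕ × ℕ × ℕ × ℕ) :=
  [(549044, 432, 0, 1171), (549760, 284, 0, 320), (550072, 28, 0, 2472), (550508, 408, 0, 2306),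
   (551202, 286, 0, 380), (551928, 440, 0, 353), (552660, 292, 0, 222), (553392, 440, 0, 518),
   (554126, 294, 0, 466), (554860, 440, 0, 735)]

theorem d06_2 : ckD 555300 l06_2 548612 = true := by decide +kernel

def l06_3 : List (ℕ × ℕ × ℕ × ℕ) :=
  [(555590, 290, 0, 438), (556328, 448, 0, 174), (557068, 292, 0, 288), (557812, 452, 0, 288),
   (558564, 300, 0, 336), (559316, 452, 0, 730), (560068, 300, 0, 259), (560824, 456, 0, 902),
   (561576, 296, 0, 43), (562332, 460, 0, 375)]

theorem d06_3 : ckD 562792 l06_3 555300 = true := by decide +kernel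

def l06_4 : List (ℕ × ℕ × ℕ × ℕ) :=
  [(563096, 304, 0, 484), (563868, 468, 0, 388), (564644, 308, 0, 641), (565420, 468, 0, 1229),
   (566196, 308, 0, 762), (566972, 468, 0, 828), (567746, 306, 0, 662), (568532, 480, 0, 477),
   (569330, 318, 0, 185), (570132, 484, 0, 1201)]

theorem d06_4 : ckD 570616 l06_4 562792 = true := by decide +kernel

def l06_5 : List (ℕ × ℕ × ℕ × ℕ) :=
  [(570934, 318, 0, 954), (571736, 484, 0, 1442), (572534, 314, 0, 39), (573340, 492, 0, 111),
   (574158, 326, 0, 144), (574980, 496, 0, 471), (575810, 334, 0, 276), (576648, 504, 0, 1693),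
   (577482, 330, 0, 1024), (578316, 504, 0, 973)]

theorem d06_5 : ckD 578820 l06_5 570616 = true := by decide +kernel

def l06_6 : List (ℕ × ℕ × ℕ × ℕ) :=
  [(579154, 334, 0, 332), (580004, 516, 0, 109), (580870, 350, 0, 571), (581740, 520, 0, 1648),
   (582608, 348, 0, 666), (583484, 528, 0, 1643), (584354, 342, 0, 156), (585236, 540, 0, 405),
   (586140, 364, 0, 98), (587056, 552, 0, 1623)]

theorem d06_6 : ckD 587608 l06_6 578820 = true := by decide +kernel

def l06_7 : List (ℕ × ℕ × ℕ × ℕ) :=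
  [(587974, 366, 0, 1394), (588892, 552, 0, 1926), (589806, 362, 0, 230), (590736, 568, 0, 367),
   (591692, 388, 0, 104), (592660, 580, 0, 1492), (593634, 394, 0, 1029), (594616, 588, 0, 2240),
   (595590, 386, 0, 54), (596580, 604, 0, 660)]

theorem d06_7 : ckD 597184 l06_7 587608 = true := by decide +kernel

def l06_8 : List (ℕ × ℕ × ℕ × ℕ) :=
  [(597606, 422, 0, 497), (598656, 628, 0, 2025), (599702, 418, 0, 928), (600760, 640, 0, 1699),
   (601818, 418, 0, 931), (602908, 672, 0, 877), (604046, 466, 0, 218), (605204, 692, 0, 2418),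
   (606348, 452, 0, 458), (607524, 724, 0, 783)]

theorem d06_8 : ckD 608248 l06_8 597184 = true := by decide +kernel

def l06_9 : List (ℕ × ℕ × ℕ × ℕ) :=
  [(608748, 500, 0, 1272), (610016, 768, 0, 710), (611300, 516, 0, 1182), (612632, 816, 0, 697),
   (614000, 552, 0, 2785), (615444, 892, 0, 2549), (616940, 604, 0, 5046), (618556, 1012, 0, 5941),
   (620210, 642, 0, 12333)]

theorem d06_9 : ckD 620852 l06_9 608248 = true := by decide +kernel

end H38.ZZ
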