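import Pool.Agent.H38.ZZ.Dat

/-! Part of the interval check. -/

namespace H38.ZZ

def l07_1 : List (ℕ × ℕ × ℕ × ℕ) :=
  [(622196, 1344, 0, 17877), (624176, 636, 0, 28467), (625448, 636, 0, 1624), (627356, 1272, 0, 41801),
   (631172, 2544, 2, 61457), (638804, 5088, 10, 10579), (654068, 10176, 32, 21458), (684596, 20352, 102, 7978),
   (747902, 42954, 374, 30568), (833809, 42953, 655, 10460)]

theorem d07_1 : ckD 876762 l07_1 620852 = true := by decide +kernel

def l07_2 : List (ℕ × ℕ × ℕ × ℕ) :=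
  [(962669, 85907, 346, 8768), (1142804, 94228, 781, 33403), (1284146, 47114, 562, 7532), (1378374, 47114, 334, 5712),
   (1529048, 103560, 390, 31519), (1667056, 34448, 60, 60651), (1735952, 34448, 38, 21382), (1784552, 14152, 8, 26091),
   (1802242, 3538, 1, 12875), (1809318, 3538, 0, 52376)]

theorem d07_2 : ckD 1812856 l07_2 876762 = true := by decide +kernel

def l07_3 : List (ℕ × ℕ × ℕ × ℕ) :=
  [(1814625, 1769, 0, 13227), (1818163, 1769, 0, 2703), (1821701, 1769, 0, 13110), (1825239, 1769, 0, 37793),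
   (1830808, 3800, 0, 31771), (1836724, 2116, 0, 15386), (1842028, 3188, 0, 13700), (1847174, 1958, 0, 8374),
   (1852020, 2888, 0, 8335), (1856734, 1826, 0, 5580)]

theorem d07_3 : ckD 1858560 l07_3 1812856 = true := by decide +kernel

def l07_4 : List (ℕ × ℕ × ℕ × ℕ) :=
  [(1860808, 2248, 0, 2798), (1863500, 444, 0, 5203), (1865668, 1724, 0, 1902), (1869948, 2556, 0, 4712),
   (1874152, 1648, 0, 1811), (1878248, 2448, 0, 4342), (1882288, 1592, 0, 1733), (1886240, 2360, 0, 3987),
   (1890142, 1542, 0, 1795), (1893980, 2296, 0, 3700)]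

theorem d07_4 : ckD 1896276 l07_4 1858560 = true := by decide +kernel

def l07_5 : List (ℕ × ℕ × ℕ × ℕ) :=
  [(1897776, 1500, 0, 1539), (1901508, 2232, 0, 3500), (1905208, 1468, 0, 1667), (1908864, 2188, 0, 3237),
   (1912484, 1432, 0, 1541), (1916064, 2148, 0, 3114), (1919620, 1408, 0, 1393), (1923136, 2108, 0, 2934),
   (1926632, 1388, 0, 1383), (1930096, 2076, 0, 2725)]

theorem d07_5 : ckD 1932172 l07_5 1896276 = true := by decide +kernel

def l07_6 : List (ℕ × ℕ × ℕ × ℕ) :=
  [(1933540, 1368, 0, 1244), (1936952, 2044, 0, 2609), (1940348, 1352, 0, 1289), (1943720, 2020, 0, 2489),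
   (1947076, 1336, 0, 1242), (1950412, 2000, 0, 2305), (1953730, 1318, 0, 1185), (1957032, 1984, 0, 2147),
   (1960320, 1304, 0, 931), (1963584, 1960, 0, 2074)]

theorem d07_6 : ckD 1965544 l07_6 1932172 = true := by decide +kernel

def l07_7 : List (ℕ × ℕ × ℕ × ℕ) :=
  [(1966840, 1296, 0, 1019), (1970080, 1944, 0, 1983), (1973312, 1288, 0, 923), (1976528, 1928, 0, 1810),
   (1979732, 1276, 0, 972), (1982928, 1920, 0, 1683), (1986114, 1266, 0, 720), (1989284, 1904, 0, 1572),
   (1992446, 1258, 0, 813), (1995600, 1896, 0, 1513)]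

theorem d07_7 : ckD 1997496 l07_7 1965544 = true := by decide +kernel

def l07_8 : List (ℕ × ℕ × ℕ × ℕ) :=
  [(1998750, 1254, 0, 577), (2001884, 1880, 0, 1375), (2005014, 1250, 0, 661), (2008136, 1872, 0, 1277),
   (2011252, 1244, 0, 586), (2014360, 1864, 0, 1181), (2017464, 1240, 0, 506), (2020560, 1856, 0, 1052),
   (2023652, 1236, 0, 431), (2026736, 1848, 0, 977)]

theorem d07_8 : ckD 2028584 l07_8 1997496 = true := by decide +kernel

def l07_9 : List (ℕ × ℕ × ℕ × ℕ) :=
  [(2029816, 1232, 0, 505), (2032896, 1848, 0, 779), (2035966, 1222, 0, 336), (2039032, 1844, 0, 752),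
   (2042098, 1222, 0, 366), (2045156, 1836, 0, 641), (2048210, 1218, 0, 278), (2051264, 1836, 0, 694),
   (2054314, 1214, 0, 341)]

theorem d07_9 : ckD 2055528 l07_9 2028584 = true := by decide +kernel

end H38.ZZ
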