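import Pool.Agent.H38.ZZ.Dat

/-! Part of the interval check. -/

namespace H38.ZZ

def l08_1 : List (ℕ × ℕ × ℕ × ℕ) :=
  [(2057364, 1836, 0, 848), (2060412, 1212, 0, 588), (2063452, 1828, 0, 905), (2066494, 1214, 0, 503),
   (2069536, 1828, 0, 1069), (2072574, 1210, 0, 586), (2075612, 1828, 0, 1143), (2078650, 1210, 0, 677),
   (2081688, 1828, 0, 1319), (2084724, 1208, 0, 769)]

theorem d08_1 : ckD 2085932 l08_1 2055528 = true := by decide +kernel

def l08_2 : List (ℕ × ℕ × ℕ × ℕ) :=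
  [(2087760, 1828, 0, 1402), (2090798, 1210, 0, 863), (2093836, 1828, 0, 1564), (2096876, 1212, 0, 980),
   (2099916, 1828, 0, 1728), (2102960, 1216, 0, 1122), (2106004, 1828, 0, 1956), (2109048, 1216, 0, 1107),
   (2112100, 1836, 0, 2196), (2115152, 1216, 0, 1408)]

theorem d08_2 : ckD 2116368 l08_2 2085932 = true := by decide +kernel

def l08_3 : List (ℕ × ℕ × ℕ × ℕ) :=
  [(2118204, 1836, 0, 2326), (2121262, 1222, 0, 1387), (2124328, 1844, 0, 2582), (2127398, 1226, 0, 1590),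
   (2130476, 1852, 0, 2920), (2133558, 1230, 0, 1797), (2136648, 1860, 0, 3157), (2139748, 1240, 0, 1907),
   (2142864, 1876, 0, 3690), (2145984, 1244, 0, 2222)]

theorem d08_3 : ckD 2147228 l08_3 2116368 = true := by decide +kernel

def l08_4 : List (ℕ × ℕ × ℕ × ℕ) :=
  [(2149120, 1892, 0, 4083), (2152268, 1256, 0, 2414), (2155440, 1916, 0, 4625), (2158632, 1276, 0, 2855),
   (2161852, 1944, 0, 5464), (2165094, 1298, 0, 3161), (2168384, 1992, 0, 6483), (2171712, 1336, 0, 3799),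
   (2175112, 2064, 0, 8298), (2178556, 1380, 0, 4265)]

theorem d08_4 : ckD 2179936 l08_4 2147228 = true := by decide +kernel

def l08_5 : List (ℕ × ℕ × ℕ × ℕ) :=
  [(2182144, 2208, 0, 11258), (2185728, 1376, 0, 2091), (2189800, 2696, 0, 19843), (2192928, 432, 0, 7220),
   (2196722, 3362, 0, 18392), (2203446, 3362, 1, 60617), (2216966, 10158, 0, 27112), (2230820, 3696, 3, 10642),
   (2238212, 3696, 1, 52137), (2243872, 1964, 0, 21521)]

theorem d08_5 : ckD 2245836 l08_5 2179936 = true := by decide +kernel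

def l08_6 : List (ℕ × ℕ × ℕ × ℕ) :=
  [(2249256, 3420, 0, 31023), (2253838, 1162, 0, 6872), (2257308, 2308, 0, 13934), (2261044, 1428, 0, 5100),
   (2264612, 2140, 0, 10138), (2268128, 1376, 0, 4587), (2271564, 2060, 0, 8208), (2274970, 1346, 0, 3987),
   (2278328, 2012, 0, 6827), (2281660, 1320, 0, 3633)]

theorem d08_6 : ckD 2282980 l08_6 2245836 = true := by decide +kernel

def l08_7 : List (ℕ × ℕ × ℕ × ℕ) :=
  [(2284968, 1988, 0, 6003), (2288264, 1308, 0, 3074), (2291536, 1964, 0, 5241), (2294800, 1300, 0, 2870),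
   (2298052, 1952, 0, 4706), (2301298, 1294, 0, 2606), (2304536, 1944, 0, 4250), (2307772, 1292, 0, 2319),
   (2311000, 1936, 0, 3847), (2314226, 1290, 0, 2235)]

theorem d08_7 : ckD 2315516 l08_7 2282980 = true := by decide +kernel

def l08_8 : List (ℕ × ℕ × ℕ × ℕ) :=
  [(2317452, 1936, 0, 3528), (2320676, 1288, 0, 2018), (2323900, 1936, 0, 3222), (2327124, 1288, 0, 1825),
   (2330348, 1936, 0, 2955), (2333570, 1286, 0, 1814), (2336800, 1944, 0, 2738), (2340032, 1288, 0, 1429),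
   (2343260, 1940, 0, 2524), (2346492, 1292, 0, 1536)]

theorem d08_8 : ckD 2347784 l08_8 2315516 = true := by decide +kernel

def l08_9 : List (ℕ × ℕ × ℕ × ℕ) :=
  [(2349732, 1948, 0, 2338), (2352976, 1296, 0, 1237), (2356220, 1948, 0, 2093), (2359466, 1298, 0, 1276),
   (2362720, 1956, 0, 1983), (2365976, 1300, 0, 1182), (2369240, 1964, 0, 1850), (2372510, 1306, 0, 993),
   (2375784, 1968, 0, 1646)]

theorem d08_9 : ckD 2377752 l08_9 2347784 = true := by decide +kernel

end H38.ZZ
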