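import Pool.Agent.H38.ZZ.Dat

/-! Part of the interval check. -/

namespace H38.ZZ

def l09_1 : List (ℕ × ℕ × ℕ × ℕ) :=
  [(2379062, 1310, 0, 970), (2382348, 1976, 0, 1550), (2385640, 1316, 0, 879), (2388940, 1984, 0, 1390),
   (2392246, 1322, 0, 770), (2395560, 1992, 0, 1223), (2398878, 1326, 0, 743), (2402208, 2004, 0, 1085),
   (2405542, 1330, 0, 593), (2408884, 2012, 0, 1043)]

theorem d09_1 : ckD 2410896 l09_1 2377752 = true := by decide +kernel

def l09_2 : List (ℕ × ℕ × ℕ × ℕ) :=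
  [(2412238, 1342, 0, 514), (2415600, 2020, 0, 858), (2418968, 1348, 0, 553), (2422352, 2036, 0, 793),
   (2425740, 1352, 0, 387), (2429140, 2048, 0, 867), (2432552, 1364, 0, 426), (2435972, 2056, 0, 995),
   (2439402, 1374, 0, 359), (2442848, 2072, 0, 1081)]

theorem d09_2 : ckD 2444920 l09_2 2410896 = true := by decide +kernel

def l09_3 : List (ℕ × ℕ × ℕ × ℕ) :=
  [(2446302, 1382, 0, 376), (2449776, 2092, 0, 1241), (2453258, 1390, 0, 552), (2456756, 2108, 0, 1356),
   (2460270, 1406, 0, 740), (2463796, 2120, 0, 1533), (2467334, 1418, 0, 638), (2470896, 2144, 0, 1666),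
   (2474468, 1428, 0, 743), (2478064, 2168, 0, 1800)]

theorem d09_3 : ckD 2480232 l09_3 2444920 = true := by decide +kernel

def l09_4 : List (ℕ × ℕ × ℕ × ℕ) :=
  [(2481676, 1444, 0, 929), (2485308, 2188, 0, 1931), (2488958, 1462, 0, 866), (2492640, 2220, 0, 2186),
   (2496336, 1476, 0, 1084), (2500060, 2248, 0, 2308), (2503808, 1500, 0, 1166), (2507588, 2280, 0, 2501),
   (2511396, 1528, 0, 1305), (2515240, 2316, 0, 2788)]

theorem d09_4 : ckD 2517556 l09_4 2480232 = true := by decide +kernel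

def l09_5 : List (ℕ × ℕ × ℕ × ℕ) :=
  [(2519112, 1556, 0, 1406), (2523028, 2360, 0, 3048), (2526974, 1586, 0, 1452), (2530976, 2416, 0, 3300),
   (2535016, 1624, 0, 1581), (2539124, 2484, 0, 3762), (2543272, 1664, 0, 1744), (2547504, 2568, 0, 4216),
   (2551798, 1726, 0, 2116), (2556188, 2664, 0, 4899)]

theorem d09_5 : ckD 2558852 l09_5 2517556 = true := by decide +kernel

def l09_6 : List (ℕ × ℕ × ℕ × ℕ) :=
  [(2560652, 1800, 0, 2137), (2565264, 2812, 0, 5811), (2569970, 1894, 0, 2347), (2574892, 3028, 0, 7118),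
   (2578966, 1046, 0, 12152), (2581002, 990, 0, 10144), (2585412, 3420, 0, 5872), (2590490, 1658, 0, 15377),
   (2597636, 5488, 0, 16027), (2610708, 7584, 1, 5570)]

theorem d09_6 : ckD 2618292 l09_6 2558852 = true := by decide +kernel

def l09_7 : List (ℕ × ℕ × ℕ × ℕ) :=
  [(2625876, 7584, 3, 43994), (2648628, 15168, 14, 21159), (2704757, 40961, 3, 58413), (2786679, 40961, 15, 42246),
   (2844483, 16843, 16, 51822), (2869748, 8422, 4, 9433), (2886591, 8421, 1, 37518), (2902092, 7080, 0, 24193),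
   (2910122, 950, 0, 4443), (2911792, 720, 0, 9796)]

theorem d09_7 : ckD 2912512 l09_7 2618292 = true := by decide +kernel

def l09_8 : List (ℕ × ℕ × ℕ × ℕ) :=
  [(2916548, 4036, 0, 13761), (2922976, 2392, 0, 3584), (2928952, 3584, 0, 9979), (2934794, 2258, 0, 3585),
   (2940404, 3352, 0, 7954), (2945908, 2152, 0, 3216), (2951264, 3204, 0, 6796), (2956550, 2082, 0, 2958),
   (2961736, 3104, 0, 5904), (2966868, 2028, 0, 2639)]

theorem d09_8 : ckD 2968896 l09_8 2912512 = true := by decide +kernel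

def l09_9 : List (ℕ × ℕ × ℕ × ℕ) :=
  [(2971924, 3028, 0, 5226), (2976938, 1986, 0, 2444), (2981896, 2972, 0, 4763), (2986826, 1958, 0, 2243),
   (2991712, 2928, 0, 4269), (2996572, 1932, 0, 2043), (3001396, 2892, 0, 3939), (3006200, 1912, 0, 2003),
   (3010984, 2872, 0, 3585)]

theorem d09_9 : ckD 3013856 l09_9 2968896 = true := by decide +kernel

end H38.ZZ
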