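import Pool.Agent.H38.ZZ.Dat

/-! Part of the interval check. -/

namespace H38.ZZ

def l10_1 : List (ℕ × ℕ × ℕ × ℕ) :=
  [(3015748, 1892, 0, 1723), (3020488, 2848, 0, 3335), (3025220, 1884, 0, 1593), (3029932, 2828, 0, 3046),
   (3034636, 1876, 0, 1472), (3039324, 2812, 0, 2818), (3044002, 1866, 0, 1486), (3048676, 2808, 0, 2637),
   (3053342, 1858, 0, 1289), (3058000, 2800, 0, 2426)]

theorem d10_1 : ckD 3060800 l10_1 3013856 = true := by decide +kernel

def l10_2 : List (ℕ × ℕ × ℕ × ℕ) :=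
  [(3062654, 1854, 0, 1165), (3067300, 2792, 0, 2276), (3071944, 1852, 0, 1162), (3076588, 2792, 0, 2101),
   (3081228, 1848, 0, 1040), (3085868, 2792, 0, 1930), (3090506, 1846, 0, 930), (3095144, 2792, 0, 1790),
   (3099784, 1848, 0, 824), (3104424, 2792, 0, 1612)]

theorem d10_2 : ckD 3107216 l10_2 3060800 = true := by decide +kernel

def l10_3 : List (ℕ × ℕ × ℕ × ℕ) :=
  [(3109068, 1852, 0, 668), (3113708, 2788, 0, 1484), (3118352, 1856, 0, 743), (3123004, 2796, 0, 1349),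
   (3127658, 1858, 0, 586), (3132316, 2800, 0, 1286), (3136976, 1860, 0, 552), (3141644, 2808, 0, 1348),
   (3146320, 1868, 0, 672), (3151000, 2812, 0, 1498)]

theorem d10_3 : ckD 3153812 l10_3 3107216 = true := by decide +kernel

def l10_4 : List (ℕ × ℕ × ℕ × ℕ) :=
  [(3155684, 1872, 0, 651), (3160380, 2824, 0, 1591), (3165080, 1876, 0, 726), (3169792, 2836, 0, 1691),
   (3174512, 1884, 0, 827), (3179244, 2848, 0, 1868), (3183982, 1890, 0, 925), (3188732, 2860, 0, 1960),
   (3193494, 1902, 0, 1021), (3198268, 2872, 0, 2101)]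

theorem d10_4 : ckD 3201140 l10_4 3153812 = true := by decide +kernel

def l10_5 : List (ℕ × ℕ × ℕ × ℕ) :=
  [(3203054, 1914, 0, 1080), (3207856, 2888, 0, 2258), (3212668, 1924, 0, 1135), (3217500, 2908, 0, 2384),
   (3222346, 1938, 0, 1253), (3227212, 2928, 0, 2552), (3232094, 1954, 0, 1340), (3237000, 2952, 0, 2748),
   (3241920, 1968, 0, 1381), (3246872, 2984, 0, 2933)]

theorem d10_5 : ckD 3249856 l10_5 3201140 = true := by decide +kernel

def l10_6 : List (ℕ × ℕ × ℕ × ℕ) :=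
  [(3251844, 1988, 0, 1596), (3256844, 3012, 0, 3146), (3261868, 2012, 0, 1636), (3266932, 3052, 0, 3412),
   (3272022, 2038, 0, 1846), (3277152, 3092, 0, 3641), (3282316, 2072, 0, 1893), (3287536, 3148, 0, 3972),
   (3292792, 2108, 0, 2079), (3298112, 3212, 0, 4277)]

theorem d10_6 : ckD 3301324 l10_6 3249856 = true := by decide +kernel

def l10_7 : List (ℕ × ℕ × ℕ × ℕ) :=
  [(3303482, 2158, 0, 2219), (3308936, 3296, 0, 4866), (3314440, 2208, 0, 2459), (3320048, 3400, 0, 5421),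
   (3325730, 2282, 0, 2725), (3331544, 3532, 0, 6201), (3337454, 2378, 0, 3086), (3343532, 3700, 0, 7159),
   (3349736, 2504, 0, 3479), (3356156, 3916, 0, 8200)]

theorem d10_7 : ckD 3360072 l10_7 3301324 = true := by decide +kernel

def l10_8 : List (ℕ × ℕ × ℕ × ℕ) :=
  [(3362742, 2670, 0, 3824), (3369604, 4192, 0, 9213), (3376674, 2878, 0, 4285), (3384028, 4476, 0, 9365),
   (3391594, 3090, 0, 4019), (3399368, 4684, 0, 7398), (3407254, 3202, 0, 2514), (3415164, 4708, 0, 7774),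
   (3423002, 3130, 0, 4680), (3430680, 4548, 0, 10832)]

theorem d10_8 : ckD 3435228 l10_8 3360072 = true := by decide +kernel

def l10_9 : List (ℕ × ℕ × ℕ × ℕ) :=
  [(3438170, 2942, 0, 5295), (3445404, 4292, 0, 11230), (3452442, 2746, 0, 5018), (3459228, 4040, 0, 10337),
   (3465858, 2590, 0, 4542), (3472280, 3832, 0, 9167), (3478588, 2476, 0, 4102), (3484736, 3672, 0, 8042),
   (3490792, 2384, 0, 3798)]

theorem d10_9 : ckD 3493176 l10_9 3435228 = true := by decide +kernel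

end H38.ZZ
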