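import Pool.Agent.H38.ZZ.Dat

/-! Part of the interval check. -/

namespace H38.ZZ

def l11_1 : List (ℕ × ℕ × ℕ × ℕ) :=
  [(3496736, 3560, 0, 7154), (3502612, 2316, 0, 3331), (3508392, 3464, 0, 6411), (3514122, 2266, 0, 3178),
   (3519788, 3400, 0, 5812), (3525416, 2228, 0, 2802), (3530984, 3340, 0, 5264), (3536522, 2198, 0, 2687),
   (3542020, 3300, 0, 4851), (3547492, 2172, 0, 2492)]

theorem d11_1 : ckD 3549664 l11_1 3493176 = true := by decide +kernel

def l11_2 : List (ℕ × ℕ × ℕ × ℕ) :=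
  [(3552932, 3268, 0, 4479), (3558354, 2154, 0, 2246), (3563744, 3236, 0, 4140), (3569118, 2138, 0, 2190),
   (3574472, 3216, 0, 3919), (3579818, 2130, 0, 1998), (3585144, 3196, 0, 3551), (3590456, 2116, 0, 1858),
   (3595752, 3180, 0, 3354), (3601038, 2106, 0, 1780)]

theorem d11_2 : ckD 3603144 l11_2 3549664 = true := by decide +kernel

def l11_3 : List (ℕ × ℕ × ℕ × ℕ) :=
  [(3606312, 3168, 0, 3195), (3611578, 2098, 0, 1712), (3616836, 3160, 0, 3017), (3622086, 2090, 0, 1596),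
   (3627328, 3152, 0, 2849), (3632564, 2084, 0, 1491), (3637792, 3144, 0, 2696), (3643016, 2080, 0, 1394),
   (3648232, 3136, 0, 2541), (3653442, 2074, 0, 1359)]

theorem d11_3 : ckD 3655516 l11_3 3603144 = true := by decide +kernel

def l11_4 : List (ℕ × ℕ × ℕ × ℕ) :=
  [(3658648, 3132, 0, 2442), (3663850, 2070, 0, 1277), (3669048, 3128, 0, 2289), (3674242, 2066, 0, 1143),
   (3679428, 3120, 0, 2166), (3684610, 2062, 0, 1132), (3689788, 3116, 0, 2100), (3694966, 2062, 0, 1021),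
   (3700136, 3108, 0, 1957), (3705302, 2058, 0, 1010)]

theorem d11_4 : ckD 3707360 l11_4 3655516 = true := by decide +kernel

def l11_5 : List (ℕ × ℕ × ℕ × ℕ) :=
  [(3710464, 3104, 0, 1899), (3715624, 2056, 0, 953), (3720780, 3100, 0, 1768), (3725932, 2052, 0, 844),
   (3731076, 3092, 0, 1700), (3736216, 2048, 0, 897), (3741356, 3092, 0, 1613), (3746490, 2042, 0, 754),
   (3751616, 3084, 0, 1562), (3756740, 2040, 0, 764)]

theorem d11_5 : ckD 3758780 l11_5 3707360 = true := by decide +kernel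

def l11_6 : List (ℕ × ℕ × ℕ × ℕ) :=
  [(3761860, 3080, 0, 1473), (3766978, 2038, 0, 614), (3772084, 3068, 0, 1380), (3777186, 2034, 0, 678),
   (3782284, 3064, 0, 1340), (3787376, 2028, 0, 637), (3792464, 3060, 0, 1240), (3797546, 2022, 0, 493),
   (3802616, 3048, 0, 1183), (3807682, 2018, 0, 517)]

theorem d11_6 : ckD 3809700 l11_6 3758780 = true := by decide +kernel

def l11_7 : List (ℕ × ℕ × ℕ × ℕ) :=
  [(3812740, 3040, 0, 1140), (3817792, 2012, 0, 488), (3822836, 3032, 0, 1076), (3827874, 2006, 0, 408),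
   (3832900, 3020, 0, 1026), (3837918, 1998, 0, 474), (3842932, 3016, 0, 942), (3847936, 1988, 0, 456),
   (3852924, 3000, 0, 901), (3857906, 1982, 0, 409)]

theorem d11_7 : ckD 3859888 l11_7 3809700 = true := by decide +kernel

def l11_8 : List (ℕ × ℕ × ℕ × ℕ) :=
  [(3862876, 2988, 0, 864), (3867838, 1974, 0, 427), (3872788, 2976, 0, 850), (3877726, 1962, 0, 483),
   (3882648, 2960, 0, 804), (3887564, 1956, 0, 488), (3892464, 2944, 0, 864), (3897352, 1944, 0, 503),
   (3902224, 2928, 0, 867), (3907084, 1932, 0, 512)]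

theorem d11_8 : ckD 3909016 l11_8 3859888 = true := by decide +kernel

def l11_9 : List (ℕ × ℕ × ℕ × ℕ) :=
  [(3911928, 2912, 0, 903), (3916756, 1916, 0, 514), (3921568, 2896, 0, 893), (3926368, 1904, 0, 622),
   (3931144, 2872, 0, 914), (3935906, 1890, 0, 566), (3940648, 2852, 0, 895), (3945376, 1876, 0, 618),
   (3950080, 2828, 0, 917)]

theorem d11_9 : ckD 3952908 l11_9 3909016 = true := by decide +kernel

end H38.ZZ
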