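import Pool.Agent.H38.ZZ.Dat

/-! Part of the interval check. -/

namespace H38.ZZ

def l12_1 : List (ℕ × ℕ × ℕ × ℕ) :=
  [(3954768, 1860, 0, 620), (3959432, 2804, 0, 920), (3964078, 1842, 0, 617), (3968700, 2780, 0, 924),
   (3973304, 1824, 0, 679), (3977880, 2752, 0, 964), (3982436, 1804, 0, 725), (3986960, 2720, 0, 904),
   (3991466, 1786, 0, 657), (3995944, 2692, 0, 938)]

theorem d12_1 : ckD 3998636 l12_1 3952908 = true := by decide +kernel

def l12_2 : List (ℕ × ℕ × ℕ × ℕ) :=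
  [(4000400, 1764, 0, 771), (4004820, 2656, 0, 926), (4009218, 1742, 0, 705), (4013584, 2624, 0, 931),
   (4017926, 1718, 0, 809), (4022228, 2584, 0, 901), (4026506, 1694, 0, 730), (4030748, 2548, 0, 880),
   (4034964, 1668, 0, 790), (4039140, 2508, 0, 931)]

theorem d12_2 : ckD 4041648 l12_2 3998636 = true := by decide +kernel

def l12_3 : List (ℕ × ℕ × ℕ × ℕ) :=
  [(4043286, 1638, 0, 836), (4047388, 2464, 0, 851), (4051462, 1610, 0, 754), (4055496, 2424, 0, 891),
   (4059496, 1576, 0, 866), (4063448, 2376, 0, 831), (4067370, 1546, 0, 849), (4071244, 2328, 0, 849),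
   (4075084, 1512, 0, 909), (4078872, 2276, 0, 838)]

theorem d12_3 : ckD 4081148 l12_3 4041648 = true := by decide +kernel

def l12_4 : List (ℕ × ℕ × ℕ × ℕ) :=
  [(4082624, 1476, 0, 887), (4086324, 2224, 0, 793), (4089988, 1440, 0, 940), (4093596, 2168, 0, 800),
   (4097166, 1402, 0, 995), (4100676, 2108, 0, 748), (4104148, 1364, 0, 977), (4107560, 2048, 0, 748),
   (4110928, 1320, 0, 951), (4114236, 1988, 0, 680)]

theorem d12_4 : ckD 4116224 l12_4 4081148 = true := by decide +kernel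

def l12_5 : List (ℕ × ℕ × ℕ × ℕ) :=
  [(4117502, 1278, 0, 1076), (4120700, 1920, 0, 638), (4123856, 1236, 0, 1061), (4126944, 1852, 0, 613),
   (4129986, 1190, 0, 1057), (4132960, 1784, 0, 622), (4135884, 1140, 0, 1128), (4138736, 1712, 0, 546),
   (4141540, 1092, 0, 1196), (4144268, 1636, 0, 497)]

theorem d12_5 : ckD 4145904 l12_5 4116224 = true := by decide +kernel

def l12_6 : List (ℕ × ℕ × ℕ × ℕ) :=
  [(4146946, 1042, 0, 1185), (4149548, 1560, 0, 454), (4152098, 990, 0, 1278), (4154568, 1480, 0, 405),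
   (4156984, 936, 0, 1267), (4159320, 1400, 0, 314), (4161602, 882, 0, 1385), (4163800, 1316, 0, 311),
   (4165940, 824, 0, 1395), (4167996, 1232, 0, 174)]

theorem d12_6 : ckD 4169228 l12_6 4145904 = true := by decide +kernel

def l12_7 : List (ℕ × ℕ × ℕ × ℕ) :=
  [(4169996, 768, 0, 1554), (4171908, 1144, 0, 229), (4173758, 706, 0, 1586), (4175520, 1056, 0, 172),
   (4177224, 648, 0, 1765), (4178836, 964, 0, 164), (4180386, 586, 0, 1850), (4181844, 872, 0, 300),
   (4183238, 522, 0, 1902), (4184540, 780, 0, 559)]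

theorem d12_7 : ckD 4185320 l12_7 4169228 = true := by decide +kernel

def l12_8 : List (ℕ × ℕ × ℕ × ℕ) :=
  [(4185780, 460, 0, 2241), (4186924, 684, 0, 531), (4188000, 392, 0, 2389), (4188980, 588, 0, 1224),
   (4189898, 330, 0, 2823), (4190716, 488, 0, 1528), (4191466, 262, 0, 3103), (4192116, 388, 0, 2907),
   (4192700, 196, 0, 3737), (4193180, 284, 0, 5252)]

theorem d12_8 : ckD 4193464 l12_8 4185320 = true := by decide +kernel

def l12_9 : List (ℕ × ℕ × ℕ × ℕ) :=
  [(4193590, 126, 0, 4019), (4193896, 180, 0, 12469), (4194132, 56, 0, 5671), (4194246, 58, 0, 41752)]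

theorem d12_9 : ckD 4194304 l12_9 4193464 = true := by decide +kernel

end H38.ZZ
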