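import Pool.Agent.H38.ZZ.D01
import Pool.Agent.H38.ZZ.D02
import Pool.Agent.H38.ZZ.D03
import Pool.Agent.H38.ZZ.D04
import Pool.Agent.H38.ZZ.D05
import Pool.Agent.H38.ZZ.D06
import Pool.Agent.H38.ZZ.D07
import Pool.Agent.H38.ZZ.D08
import Pool.Agent.H38.ZZ.D09
import Pool.Agent.H38.ZZ.D10
import Pool.Agent.H38.ZZ.D11
import Pool.Agent.H38.ZZ.D12
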