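import Pool.Agent.H38.ZZ.Chk

/-! Definitions for the soundness of the interval check. -/

namespace H38.ZZ

/-- evaluation of a coefficient list (low to high) -/
noncomputable def evL : List ℤ → ℝ → ℝ
  | [], _ => 0
  | (a :: l), x => (a : ℝ) + x * evL l x

/-- `2^60` as a real -/
noncomputable def FF : ℝ := 1152921504606846976

/-- the factor of a node at the (scaled) point `X` -/
noncomputable def nodeR (X : ℝ) (a : ℕ × ℕ) : ℝ :=
  (max |X - a.1| (a.2 : ℝ)) ^ 2 *
    (1152921504606846976 + X * a.1 * (X + a.1) + (a.2 : ℝ) * a.2 * 1048576 - 3145728 * (X * a.1))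

end H38.ZZ
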