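import Pool.Agent.H38.ZZ.Avg

/-! The energy inequality for distinct points against smeared unit charges. -/

open Finset

namespace H38.ZZ

/-- the product of the distances from a `K`-th root of unity to the other ones is `K` -/
theorem prod_dist_roots {K : ℕ} (hK : 0 < K) {ω : ℂ} (hω : IsPrimitiveRoot ω K) (k : Fin K) :
    ∏ l ∈ univ.filter (fun l : Fin K => l ≠ k), ‖ω ^ (k : ℕ) - ω ^ (l : ℕ)‖ = K := by
  have h1 := X_pow_sub_C_eq_prod hω hK (one_pow K)
  have hn : ‖ω‖ = 1 := hω.norm'_eq_one hK.ne'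
  have h2 : (Polynomial.X ^ K - Polynomial.C (1 : ℂ)) =
      (Polynomial.X - Polynomial.C (ω ^ (k : ℕ))) *
        ∏ l ∈ univ.filter (fun l : Fin K => l ≠ k), (Polynomial.X - Polynomial.C (ω ^ (l : ℕ))) := by
    rw [h1, ← Fin.prod_univ_eq_prod_range (fun i => (Polynomial.X - Polynomial.C (ω ^ i * 1))) K]
    simp only [mul_one]
    rw [Finset.filter_ne']
    rw [Finset.mul_prod_erase univ (fun l : Fin K => Polynomial.X - Polynomial.C (ω ^ (l : ℕ)))
      (mem_univ k)]
  have h3 := congrArg (fun p => (Polynomial.derivative p).eval (ω ^ (k : ℕ))) h2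
  simp only [Polynomial.derivative_sub, Polynomial.derivative_X_pow, Polynomial.derivative_C,
    sub_zero, Polynomial.derivative_mul, Polynomial.derivative_X, one_mul, Polynomial.eval_add,
    Polynomial.eval_mul, Polynomial.eval_sub, Polynomial.eval_X, Polynomial.eval_C, sub_self,
    zero_mul, add_zero, Polynomial.eval_prod, Polynomial.eval_pow] at h3
  have h4 := congrArg norm h3
  rw [norm_prod] at h4
  rw [← h4, norm_mul, norm_pow, norm_pow, hn]
  simp

theorem sum_log_dist_roots {K : ℕ} (hK : 0 < K) {ω : ℂ} (hω : IsPrimitiveRoot ω K) (k : Fin K) :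
    ∑ l ∈ univ.filter (fun l : Fin K => l ≠ k), Real.log ‖ω ^ (k : ℕ) - ω ^ (l : ℕ)‖ =
      Real.log K := by
  rw [← Real.log_prod, prod_dist_roots hK hω k]
  intro l hl
  rw [norm_ne_zero_iff, sub_ne_zero]
  intro h
  apply (mem_filter.mp hl).2
  exact Fin.ext (hω.pow_inj l.2 k.2 h.symm)

/-- the conditional negativity, as a hypothesis on the kernel -/
def CND : Prop := ∀ {ι : Type} [Fintype ι] (q : ι → ℝ) (z : ι → ℂ), ∑ i, q i = 0 →
  ∀ {u : ℝ}, 0 < u → ∑ i, ∑ j, q i * q j * Real.log (‖z i - z j‖ ^ 2 + u) ≤ 0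

section

variable {d M K : ℕ}

/-- centres -/
noncomputable def cen (α : Fin d → ℂ) (w : Fin M → ℂ) : Fin d ⊕ (Fin M × Fin K) → ℂ :=
  Sum.elim α (fun ak => w ak.1)

/-- radii times roots of unity -/
noncomputable def rad (r : Fin M → ℝ) (ω : ℂ) : Fin d ⊕ (Fin M × Fin K) → ℂ :=
  Sum.elim (fun _ => 0) (fun ak => (r ak.1 : ℂ) * ω ^ (ak.2 : ℕ))

/-- charges -/
noncomputable def chg : Fin d ⊕ (Fin M × Fin K) → ℝ :=
  Sum.elim (fun _ => 1 / (d : ℝ)) (fun _ => -(1 / ((M : ℝ) * K)))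

/-- the bounds for the averages -/
noncomputable def bd (α : Fin d → ℂ) (w : Fin M → ℂ) (r : Fin M → ℝ) (ω : ℂ) (δ : ℝ) :
    Fin d ⊕ (Fin M × Fin K) → Fin d ⊕ (Fin M × Fin K) → ℝ
  | Sum.inl i, Sum.inl j => if j = i then 2 * Real.log δ else 2 * Real.log ‖α i - α j‖
  | Sum.inl i, Sum.inr ak => 2 * Real.log (max ‖α i - w ak.1‖ (r ak.1)) + 2 * (δ / r ak.1)
  | Sum.inr ak, Sum.inl i => 2 * Real.log (max ‖α i - w ak.1‖ (r ak.1)) + 2 * (δ / r ak.1)
  | Sum.inr ak, Sum.inr bl =>
      if bl.1 = ak.1 then (if bl.2 = ak.2 then 2 * Real.log δ else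
        2 * (Real.log (r ak.1) + Real.log ‖ω ^ (ak.2 : ℕ) - ω ^ (bl.2 : ℕ)‖))
      else 2 * Real.log ‖w ak.1 - w bl.1‖

theorem sum_chg (hd : 0 < d) (hM : 0 < M) (hK : 0 < K) :
    ∑ i : Fin d ⊕ (Fin M × Fin K), chg i = 0 := by
  rw [Fintype.sum_sum_type]
  simp only [chg, Sum.elim_inl, Sum.elim_inr, sum_const, card_univ, Fintype.card_fin,
    Fintype.card_prod, nsmul_eq_mul, Nat.cast_mul]
  have h1 : (d : ℝ) ≠ 0 := by positivity
  have h2 : (M : ℝ) ≠ 0 := by positivity
  have h3 : (K : ℝ) ≠ 0 := by positivity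
  field_simp
  ring

/-- average of the kernel -/
noncomputable def av (α : Fin d → ℂ) (w : Fin M → ℂ) (r : Fin M → ℝ) (ω : ℂ) (δ : ℝ)
    (i j : Fin d ⊕ (Fin M × Fin K)) : ℝ :=
  Real.circleAverage (fun x : ℂ => Real.log (‖(cen α w i - cen α w j) +
    (rad r ω i - rad r ω j) * x‖ ^ 2 + δ ^ 2)) 0 1

theorem av_sum_nonpos (H : CND) (hd : 0 < d) (hM : 0 < M) (hK : 0 < K)
    (α : Fin d → ℂ) (w : Fin M → ℂ) (r : Fin M → ℝ) (ω : ℂ) {δ : ℝ} (hδ : 0 < δ) :
    ∑ i : Fin d ⊕ (Fin M × Fin K), ∑ j : Fin d ⊕ (Fin M × Fin K),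
      chg i * chg j * av α w r ω δ i j ≤ 0 := by
  have hint : ∀ i j : Fin d ⊕ (Fin M × Fin K), CircleIntegrable
      (fun x : ℂ => (chg i * chg j) • Real.log (‖(cen α w i - cen α w j) +
        (rad r ω i - rad r ω j) * x‖ ^ 2 + δ ^ 2)) 0 1 := by
    intro i j
    exact (avg_int _ _ hδ).const_smul
  have h1 : ∑ i : Fin d ⊕ (Fin M × Fin K), ∑ j : Fin d ⊕ (Fin M × Fin K),
      chg i * chg j * av α w r ω δ i j =
      Real.circleAverage (fun x : ℂ => ∑ i : Fin d ⊕ (Fin M × Fin K),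
        ∑ j : Fin d ⊕ (Fin M × Fin K), (chg i * chg j) •
          Real.log (‖(cen α w i - cen α w j) +
        (rad r ω i - rad r ω j) * x‖ ^ 2 + δ ^ 2)) 0 1 := by
    rw [Real.circleAverage_fun_sum]
    · apply sum_congr rfl
      intro i _
      rw [Real.circleAverage_fun_sum]
      · apply sum_congr rfl
        intro j _
        rw [Real.circleAverage_fun_smul, smul_eq_mul]
        rfl
      · intro j _
        exact hint i j
    · intro i _
      apply CircleIntegrable.fun_sum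
      intro j _
      exact hint i j
  rw [h1]
  apply Real.circleAverage_mono_on_of_le_circle
  · apply CircleIntegrable.fun_sum
    intro i _
    apply CircleIntegrable.fun_sum
    intro j _
    exact hint i j
  · intro x _
    have := H (fun i : Fin d ⊕ (Fin M × Fin K) => chg i)
      (fun i => cen α w i + rad r ω i * x) (sum_chg hd hM hK) (u := δ ^ 2) (by positivity)
    refine le_of_eq_of_le ?_ this
    apply sum_congr rfl
    intro i _
    apply sum_congr rfl
    intro j _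
    rw [smul_eq_mul]
    congr 4
    ring_nf

theorem log_sq_add_ge {t δ : ℝ} (ht : 0 < t) : 2 * Real.log t ≤ Real.log (t ^ 2 + δ ^ 2) := by
  have : 2 * Real.log t = Real.log (t ^ 2) := by rw [Real.log_pow]; push_cast; ring
  rw [this]
  exact Real.log_le_log (by positivity) (by nlinarith [sq_nonneg δ])

theorem bd_le (hd : 0 < d) (hM : 0 < M) (hK : 0 < K)
    (α : Fin d → ℂ) (hα : Function.Injective α) (w : Fin M → ℂ) (hw : Function.Injective w)
    (r : Fin M → ℝ) (hr : ∀ a, 0 < r a) {ω : ℂ} (hω : IsPrimitiveRoot ω K) {δ : ℝ} (hδ : 0 < δ)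
    (i j : Fin d ⊕ (Fin M × Fin K)) :
    chg i * chg j * bd α w r ω δ i j ≤ chg i * chg j * av α w r ω δ i j := by
  have hn : ‖ω‖ = 1 := hω.norm'_eq_one hK.ne'
  have hlogδ : Real.log (δ ^ 2) = 2 * Real.log δ := by rw [Real.log_pow]; push_cast; ring
  have hpos : ∀ i j : Fin d, (0 : ℝ) ≤ 1 / (d : ℝ) * (1 / (d : ℝ)) := fun _ _ => by positivity
  rcases i with i | ⟨a, k⟩ <;> rcases j with j | ⟨b, l⟩
  · apply mul_le_mul_of_nonneg_left _ (by simp only [chg, Sum.elim_inl]; positivity)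
    simp only [bd, av, cen, rad, Sum.elim_inl, sub_self, zero_mul, add_zero]
    rw [Real.circleAverage_const]
    split_ifs with h
    · subst h
      simp [hlogδ]
    · apply log_sq_add_ge
      rw [norm_pos_iff, sub_ne_zero]
      intro h'
      exact h (hα h').symm
  · apply mul_le_mul_of_nonpos_left
    · simp only [bd, av, cen, rad, Sum.elim_inl, Sum.elim_inr]
      apply avg_upper _ _ (hr b) _ hδ
      rw [zero_sub, norm_neg, norm_mul, norm_pow, hn, one_pow, mul_one, Complex.norm_real,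
        Real.norm_of_nonneg (hr b).le]
    · simp only [chg, Sum.elim_inl, Sum.elim_inr]
      have : (0 : ℝ) ≤ 1 / d * (1 / (M * K)) := by positivity
      linarith
  · apply mul_le_mul_of_nonpos_left
    · simp only [bd, av, cen, rad, Sum.elim_inl, Sum.elim_inr]
      rw [norm_sub_rev (α j) (w a)]
      apply avg_upper _ _ (hr a) _ hδ
      rw [sub_zero, norm_mul, norm_pow, hn, one_pow, mul_one, Complex.norm_real,
        Real.norm_of_nonneg (hr a).le]
    · simp only [chg, Sum.elim_inl, Sum.elim_inr]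
      have : (0 : ℝ) ≤ 1 / (M * K) * (1 / d) := by positivity
      linarith
  · apply mul_le_mul_of_nonneg_left _ (by simp only [chg, Sum.elim_inr]; rw [neg_mul_neg]; positivity)
    simp only [bd, av, cen, rad, Sum.elim_inr]
    by_cases hab : b = a
    · subst hab
      simp only [if_true, sub_self, zero_add]
      by_cases hkl : l = k
      · subst hkl
        simp only [if_true, sub_self, zero_mul, norm_zero]
        rw [Real.circleAverage_const]
        simp [hlogδ]
      · simp only [hkl, if_false]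
        have hne : ω ^ (k : ℕ) - ω ^ (l : ℕ) ≠ 0 := by
          rw [sub_ne_zero]
          intro h
          exact hkl (Fin.ext (hω.pow_inj l.2 k.2 h.symm))
        have hB : 0 < ‖(r b : ℂ) * ω ^ (k : ℕ) - (r b : ℂ) * ω ^ (l : ℕ)‖ := by
          rw [← mul_sub, norm_mul, Complex.norm_real, Real.norm_of_nonneg (hr b).le]
          exact mul_pos (hr b) (norm_pos_iff.mpr hne)
        have e1 : Set.EqOn (fun x : ℂ => Real.log (‖((r b : ℂ) * ω ^ (k : ℕ) -
            (r b : ℂ) * ω ^ (l : ℕ)) * x‖ ^ 2 + δ ^ 2))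
            (fun _ : ℂ => Real.log (‖(r b : ℂ) * ω ^ (k : ℕ) -
            (r b : ℂ) * ω ^ (l : ℕ)‖ ^ 2 + δ ^ 2)) (Metric.sphere 0 |1|) := by
          intro x hx
          have hx1 : ‖x‖ = 1 := by simpa using hx
          simp only
          rw [norm_mul, hx1, mul_one]
        rw [Real.circleAverage_congr_sphere e1, Real.circleAverage_const]
        refine le_trans (le_of_eq ?_) (log_sq_add_ge hB)
        rw [← mul_sub, norm_mul, Complex.norm_real, Real.norm_of_nonneg (hr b).le,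
          Real.log_mul (hr b).ne' (norm_ne_zero_iff.mpr hne)]
    · simp only [hab, if_false]
      apply avg_lower _ _ hδ
      rw [sub_ne_zero]
      intro h
      exact hab (hw h).symm

theorem sum_ite_split {n : ℕ} (i : Fin n) (u : ℝ) (f : Fin n → ℝ) :
    ∑ j, (if j = i then u else f j) = u + ∑ j ∈ univ.filter (fun j => j ≠ i), f j := by
  rw [Finset.sum_ite, Finset.filter_eq' univ i, if_pos (mem_univ i), sum_singleton]

theorem energy_gen (H : CND) (hd : 0 < d) (hM : 0 < M) (hK : 0 < K)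
    (α : Fin d → ℂ) (hα : Function.Injective α) (w : Fin M → ℂ) (hw : Function.Injective w)
    (r : Fin M → ℝ) (hr : ∀ a, 0 < r a) {δ : ℝ} (hδ : 0 < δ) :
    (1 / (d : ℝ) ^ 2) * (∑ i, ∑ j ∈ univ.filter (fun j => j ≠ i), Real.log ‖α i - α j‖)
      + (1 / (d : ℝ)) * Real.log δ
      + (1 / (M : ℝ) ^ 2) * ((∑ a, ∑ b ∈ univ.filter (fun b => b ≠ a), Real.log ‖w a - w b‖)
          + ∑ a, ((1 / (K : ℝ)) * Real.log δ + (1 - 1 / (K : ℝ)) * Real.log (r a)
            + (1 / (K : ℝ)) * Real.log K))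
      ≤ (2 / ((d : ℝ) * M)) * ∑ i, ∑ a, (Real.log (max ‖α i - w a‖ (r a)) + δ / r a) := by
  obtain ⟨ω, hω⟩ : ∃ ω : ℂ, IsPrimitiveRoot ω K := ⟨_, Complex.isPrimitiveRoot_exp K hK.ne'⟩
  have hd' : (d : ℝ) ≠ 0 := by positivity
  have hM' : (M : ℝ) ≠ 0 := by positivity
  have hK' : (K : ℝ) ≠ 0 := by positivity
  have h0 : ∑ i : Fin d ⊕ (Fin M × Fin K), ∑ j : Fin d ⊕ (Fin M × Fin K),
      chg i * chg j * bd α w r ω δ i j ≤ 0 := by
    refine le_trans ?_ (av_sum_nonpos H hd hM hK α w r ω hδ)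
    apply sum_le_sum
    intro i _
    apply sum_le_sum
    intro j _
    exact bd_le hd hM hK α hα w hw r hr hω hδ i j
  set Sα := ∑ i, ∑ j ∈ univ.filter (fun j => j ≠ i), Real.log ‖α i - α j‖ with hSα
  set Sw := ∑ a, ∑ b ∈ univ.filter (fun b => b ≠ a), Real.log ‖w a - w b‖ with hSw
  set X := ∑ i, ∑ a, (Real.log (max ‖α i - w a‖ (r a)) + δ / r a) with hX
  set R := ∑ a, Real.log (r a) with hR
  have A1 : ∑ i : Fin d, ∑ j : Fin d, chg (d := d) (M := M) (K := K) (Sum.inl i) * chg (d := d) (M := M) (K := K) (Sum.inl j) *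
      bd (K := K) α w r ω δ (Sum.inl i) (Sum.inl j) =
      (1 / (d : ℝ) ^ 2) * (d * (2 * Real.log δ) + 2 * Sα) := by
    have e : ∀ i : Fin d, ∑ j : Fin d, chg (d := d) (M := M) (K := K) (Sum.inl i) * chg (d := d) (M := M) (K := K) (Sum.inl j) *
        bd (K := K) α w r ω δ (Sum.inl i) (Sum.inl j) =
        (1 / (d : ℝ) ^ 2) * (2 * Real.log δ + 2 * ∑ j ∈ univ.filter (fun j => j ≠ i),
          Real.log ‖α i - α j‖) := by
      intro i
      simp only [chg, bd, Sum.elim_inl]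
      rw [← mul_sum, sum_ite_split i (2 * Real.log δ) (fun j => 2 * Real.log ‖α i - α j‖),
        ← mul_sum]
      field_simp
    rw [sum_congr rfl (fun i _ => e i), ← mul_sum, sum_add_distrib, sum_const,
      card_univ, Fintype.card_fin, nsmul_eq_mul, ← mul_sum]
  have A2 : ∑ i : Fin d, ∑ ak : Fin M × Fin K, chg (d := d) (M := M) (K := K) (Sum.inl i) *
      chg (d := d) (M := M) (K := K) (Sum.inr ak) * bd (K := K) α w r ω δ (Sum.inl i) (Sum.inr ak) =
      -(1 / ((d : ℝ) * M)) * (2 * X) := by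
    have e : ∀ i : Fin d, ∑ ak : Fin M × Fin K, chg (d := d) (M := M) (K := K) (Sum.inl i) *
        chg (d := d) (M := M) (K := K) (Sum.inr ak) * bd (K := K) α w r ω δ (Sum.inl i) (Sum.inr ak) =
        -(1 / ((d : ℝ) * M)) * (2 * ∑ a, (Real.log (max ‖α i - w a‖ (r a)) + δ / r a)) := by
      intro i
      simp only [chg, bd, Sum.elim_inl, Sum.elim_inr]
      rw [← mul_sum, Fintype.sum_prod_type]
      simp only [sum_const, card_univ, Fintype.card_fin, nsmul_eq_mul]
      rw [← mul_sum]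
      simp only [← mul_add]
      rw [← mul_sum]
      field_simp
    rw [sum_congr rfl (fun i _ => e i), ← mul_sum, ← mul_sum]
  have A3 : ∑ ak : Fin M × Fin K, ∑ i : Fin d, chg (d := d) (M := M) (K := K) (Sum.inr ak) *
      chg (d := d) (M := M) (K := K) (Sum.inl i) * bd (K := K) α w r ω δ (Sum.inr ak) (Sum.inl i) =
      -(1 / ((d : ℝ) * M)) * (2 * X) := by
    rw [sum_comm, ← A2]
    apply sum_congr rfl
    intro i _
    apply sum_congr rfl
    intro ak _
    simp only [bd]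
    ring
  have A4 : ∑ ak : Fin M × Fin K, ∑ bl : Fin M × Fin K, chg (d := d) (M := M) (K := K) (Sum.inr ak) *
      chg (d := d) (M := M) (K := K) (Sum.inr bl) * bd (K := K) α w r ω δ (Sum.inr ak) (Sum.inr bl) =
      (1 / ((M : ℝ) * K) ^ 2) * (K * (M * (2 * Real.log δ) + 2 * ((K - 1) * R + M * Real.log K))
        + K ^ 2 * (2 * Sw)) := by
    have e : ∀ (a : Fin M) (k : Fin K), ∑ bl : Fin M × Fin K, chg (d := d) (M := M) (K := K) (Sum.inr (a, k)) *
        chg (d := d) (M := M) (K := K) (Sum.inr bl) * bd (K := K) α w r ω δ (Sum.inr (a, k)) (Sum.inr bl) =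
        (1 / ((M : ℝ) * K) ^ 2) * ((2 * Real.log δ + 2 * ((K - 1) * Real.log (r a) + Real.log K))
          + K * (2 * ∑ b ∈ univ.filter (fun b => b ≠ a), Real.log ‖w a - w b‖)) := by
      intro a k
      simp only [chg, bd, Sum.elim_inr]
      rw [← mul_sum, Fintype.sum_prod_type]
      have e2 : ∀ b : Fin M, ∑ l : Fin K, (if b = a then (if l = k then 2 * Real.log δ else
          2 * (Real.log (r a) + Real.log ‖ω ^ (k : ℕ) - ω ^ (l : ℕ)‖))
          else 2 * Real.log ‖w a - w b‖) = if b = a then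
            (2 * Real.log δ + 2 * ((K - 1) * Real.log (r a) + Real.log K)) else
            K * (2 * Real.log ‖w a - w b‖) := by
        intro b
        split_ifs with hb
        · rw [sum_ite_split k, ← mul_sum, sum_add_distrib, sum_log_dist_roots hK hω k, sum_const,
            Finset.filter_ne', card_erase_of_mem (mem_univ k), card_univ, Fintype.card_fin,
            nsmul_eq_mul, Nat.cast_sub hK]
          push_cast
          ring
        · rw [sum_const, card_univ, Fintype.card_fin, nsmul_eq_mul]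
      rw [sum_congr rfl (fun b _ => e2 b), sum_ite_split a _ (fun b => K * (2 * Real.log ‖w a - w b‖)),
        ← mul_sum, ← mul_sum]
      field_simp
    rw [Fintype.sum_prod_type]
    have e3 : ∀ a : Fin M, ∑ k : Fin K, ∑ bl : Fin M × Fin K, chg (d := d) (M := M) (K := K) (Sum.inr (a, k)) *
        chg (d := d) (M := M) (K := K) (Sum.inr bl) * bd (K := K) α w r ω δ (Sum.inr (a, k)) (Sum.inr bl) =
        (1 / ((M : ℝ) * K) ^ 2) * (K * ((2 * Real.log δ + 2 * ((K - 1) * Real.log (r a)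
          + Real.log K)) + K * (2 * ∑ b ∈ univ.filter (fun b => b ≠ a),
            Real.log ‖w a - w b‖))) := by
      intro a
      rw [sum_congr rfl (fun k _ => e a k), sum_const, card_univ, Fintype.card_fin, nsmul_eq_mul]
      ring
    rw [sum_congr rfl (fun a _ => e3 a), ← mul_sum]
    congr 1
    have e4 : ∀ a : Fin M, (K : ℝ) * ((2 * Real.log δ + 2 * ((K - 1) * Real.log (r a)
          + Real.log K)) + K * (2 * ∑ b ∈ univ.filter (fun b => b ≠ a),
            Real.log ‖w a - w b‖)) = (K * (2 * Real.log δ + 2 * Real.log K)) +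
          (2 * K * (K - 1)) * Real.log (r a) + (2 * K ^ 2) *
            ∑ b ∈ univ.filter (fun b => b ≠ a), Real.log ‖w a - w b‖ := by
      intro a; ring
    rw [sum_congr rfl (fun a _ => e4 a), sum_add_distrib, sum_add_distrib, sum_const, card_univ,
      Fintype.card_fin, nsmul_eq_mul, ← mul_sum, ← mul_sum, ← hR, ← hSw]
    ring
  have hsum : ∑ i : Fin d ⊕ (Fin M × Fin K), ∑ j : Fin d ⊕ (Fin M × Fin K),
      chg i * chg j * bd α w r ω δ i j =
      (1 / (d : ℝ) ^ 2) * (d * (2 * Real.log δ) + 2 * Sα) + -(1 / ((d : ℝ) * M)) * (2 * X) +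
      (-(1 / ((d : ℝ) * M)) * (2 * X) +
      (1 / ((M : ℝ) * K) ^ 2) * (K * (M * (2 * Real.log δ) + 2 * ((K - 1) * R + M * Real.log K))
        + K ^ 2 * (2 * Sw))) := by
    rw [Fintype.sum_sum_type]
    simp only [Fintype.sum_sum_type (f := fun j => chg _ * chg j * bd α w r ω δ _ j)]
    rw [sum_add_distrib, sum_add_distrib, A1, A2, A3, A4]
  rw [hsum] at h0
  have hfin : (1 / (d : ℝ) ^ 2) * Sα + (1 / (d : ℝ)) * Real.log δ
      + (1 / (M : ℝ) ^ 2) * (Sw + ∑ a, ((1 / (K : ℝ)) * Real.log δ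
        + (1 - 1 / (K : ℝ)) * Real.log (r a) + (1 / (K : ℝ)) * Real.log K))
      - (2 / ((d : ℝ) * M)) * X = (1 / 2) * ((1 / (d : ℝ) ^ 2) * (d * (2 * Real.log δ) + 2 * Sα)
      + -(1 / ((d : ℝ) * M)) * (2 * X) + (-(1 / ((d : ℝ) * M)) * (2 * X) +
      (1 / ((M : ℝ) * K) ^ 2) * (K * (M * (2 * Real.log δ) + 2 * ((K - 1) * R + M * Real.log K))
        + K ^ 2 * (2 * Sw)))) := by
    rw [sum_add_distrib, sum_add_distrib, sum_const, sum_const, card_univ,
      Fintype.card_fin, nsmul_eq_mul, nsmul_eq_mul, ← mul_sum, ← hR]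
    field_simp
    ring
  linarith

/-- the energy inequality with `K = d` and `δ = 1/d` -/
theorem energy (H : CND) (hd : 0 < d) (hM : 0 < M) (α : Fin d → ℂ) (hα : Function.Injective α)
    (w : Fin M → ℂ) (hw : Function.Injective w) (r : Fin M → ℝ) (hr : ∀ a, 0 < r a)
    (hr1 : ∀ a, r a ≤ 1) :
    (1 / (d : ℝ) ^ 2) * (∑ i, ∑ j ∈ univ.filter (fun j => j ≠ i), Real.log ‖α i - α j‖)
      + (1 / (M : ℝ) ^ 2) * ((∑ a, ∑ b ∈ univ.filter (fun b => b ≠ a), Real.log ‖w a - w b‖)
          + ∑ a, Real.log (r a))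
      - Real.log d / d - (2 / ((d : ℝ) * M)) * ∑ a, 1 / r a
      ≤ (2 / ((d : ℝ) * M)) * ∑ i, ∑ a, Real.log (max ‖α i - w a‖ (r a)) := by
  have hd' : (0 : ℝ) < d := by positivity
  have hM' : (0 : ℝ) < M := by positivity
  have h := energy_gen H hd hM hd α hα w hw r hr (δ := 1 / (d : ℝ)) (by positivity)
  have hlog : Real.log (1 / (d : ℝ)) = -Real.log d := by
    rw [one_div, Real.log_inv]
  rw [hlog] at h
  have h1 : ∑ a, Real.log (r a) ≤ ∑ a, ((1 / (d : ℝ)) * -Real.log d
        + (1 - 1 / (d : ℝ)) * Real.log (r a) + (1 / (d : ℝ)) * Real.log d) := by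
    apply sum_le_sum
    intro a _
    have h2 : Real.log (r a) ≤ 0 := Real.log_nonpos (hr a).le (hr1 a)
    have h3 : 0 ≤ 1 / (d : ℝ) := by positivity
    nlinarith [mul_nonneg h3 (neg_nonneg.mpr h2)]
  have h2 : ∑ i : Fin d, ∑ a, (Real.log (max ‖α i - w a‖ (r a)) + 1 / (d : ℝ) / r a) =
      (∑ i, ∑ a, Real.log (max ‖α i - w a‖ (r a))) + ∑ a, 1 / r a := by
    simp only [sum_add_distrib, sum_const, card_univ, Fintype.card_fin, nsmul_eq_mul]
    congr 1
    rw [mul_sum]
    apply sum_congr rfl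
    intro a _
    field_simp
  rw [h2, mul_add] at h
  have h3 : (1 / (M : ℝ) ^ 2) * ((∑ a, ∑ b ∈ univ.filter (fun b => b ≠ a), Real.log ‖w a - w b‖)
          + ∑ a, Real.log (r a)) ≤ (1 / (M : ℝ) ^ 2) * ((∑ a, ∑ b ∈ univ.filter (fun b => b ≠ a),
          Real.log ‖w a - w b‖) + ∑ a, ((1 / (d : ℝ)) * -Real.log d
        + (1 - 1 / (d : ℝ)) * Real.log (r a) + (1 / (d : ℝ)) * Real.log d)) := by
    apply mul_le_mul_of_nonneg_left _ (by positivity)
    linarith
  have h4 : Real.log d / d = (1 / (d : ℝ)) * Real.log d := by ring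
  rw [h4]
  linarith

end

end H38.ZZ
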