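import Pool.Agent.H38.ZZ.Dat

/-! The products of the energy: kernel bounds. -/

namespace H38.ZZ

/-- `ΔY^2 * R` of a pair of nodes, scaled by `2^100` -/
def pairN (a b : ℕ) : ℕ :=
  Nat.mul (Nat.mul (Nat.add (Nat.sub a b) (Nat.sub b a)) (Nat.add (Nat.sub a b) (Nat.sub b a)))
    (Nat.sub (Nat.add 1152921504606846976 (Nat.mul (Nat.mul a b) (Nat.add a b)))
      (Nat.mul 3145728 (Nat.mul a b)))

/-- product of the pairs of `a` with the nodes of a list -/
noncomputable def rowN (a : ℕ) (l : List (ℕ × ℕ)) : ℕ :=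
  List.rec (motive := fun _ => ℕ) 1 (fun b _ ih => Nat.mul (pairN a b.1) ih) l

/-- product of all pairs -/
noncomputable def allN : List (ℕ × ℕ) → ℕ
  | [] => 1
  | (a :: l) => rowN a.1 l * allN l

/-- product of the first `g` rows -/
noncomputable def parN : ℕ → List (ℕ × ℕ) → ℕ
  | 0, _ => 1
  | _ + 1, [] => 1
  | g + 1, (a :: l) => rowN a.1 l * parN g l

theorem allN_split (g : ℕ) (l : List (ℕ × ℕ)) : allN l = parN g l * allN (l.drop g) := by
  induction g generalizing l with
  | zero => simp [parN]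
  | succ g ih =>
    cases l with
    | nil => simp [parN, allN]
    | cons a l => simp only [parN, allN, List.drop_succ_cons]; rw [ih l, mul_assoc]

/-- the one-node part, scaled by `2^140` -/
def ownN (a : ℕ × ℕ × ℕ) : ℕ :=
  Nat.mul (Nat.mul (Nat.mul a.2.1 a.2.1) (Nat.mul a.1 (Nat.sub 4194304 a.1)))
    (Nat.mul (Nat.mul (Nat.add (Nat.sub a.1 1048576) (Nat.sub 1048576 a.1))
      (Nat.add (Nat.sub a.1 1048576) (Nat.sub 1048576 a.1))) (Nat.add 1048576 (Nat.mul 2 a.1)))

/-- product of the one-node parts -/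
noncomputable def ownAll (l : List (ℕ × ℕ × ℕ)) : ℕ :=
  List.rec (motive := fun _ => ℕ) 1 (fun b _ ih => Nat.mul (ownN b) ih) l

/-- the conditions on one node `(Y, r, K)` -/
def nodeOK (a : ℕ × ℕ × ℕ) : Bool :=
  Nat.ble 1 a.1 && Nat.ble (a.1 + 1) 4194304 && !(Nat.beq a.1 1048576) &&
  Nat.ble 1 a.2.1 && Nat.ble a.2.1 1048576 && Nat.ble 1 a.2.2 &&
  Nat.ble (a.2.1 * a.2.1) (a.2.2 * 1048576) &&
  Nat.ble (a.2.1 * a.2.1 * (a.1 * (4194304 - a.1)))
    ((a.2.2 * 1048576 - a.2.1 * a.2.1) * (a.2.2 * 1048576 - a.2.1 * a.2.1))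

theorem nodes_eq : nodes = nodes3.map (fun a => (a.1, a.2.2)) := by decide +kernel

theorem nodes3_ok : nodes3.all nodeOK = true := by decide +kernel

theorem nodes3_len : nodes3.length = 512 := by decide +kernel

/-- the positions increase -/
def incr : List (ℕ × ℕ × ℕ) → ℕ → Bool
  | [], _ => true
  | (a :: l), c => Nat.ble (c + 1) a.1 && incr l a.1

theorem incr_spec (l : List (ℕ × ℕ × ℕ)) (c : ℕ) (h : incr l c = true) :
    (∀ a ∈ l, c < a.1) ∧ l.Pairwise (fun a b => a.1 < b.1) := by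
  induction l generalizing c with
  | nil => exact ⟨by simp, List.Pairwise.nil⟩
  | cons a l ih =>
    unfold incr at h
    rw [Bool.and_eq_true] at h
    obtain ⟨h1, h2⟩ := ih a.1 h.2
    have h3 := Nat.le_of_ble_eq_true h.1
    refine ⟨?_, List.Pairwise.cons h1 h2⟩
    intro b hb
    rcases List.mem_cons.1 hb with rfl | hb
    · omega
    · have := h1 b hb
      omega

theorem nodes3_incr : incr nodes3 0 = true := by decide +kernel

theorem nodes3_lt : nodes3.Pairwise (fun a b => a.1 < b.1) := (incr_spec nodes3 0 nodes3_incr).2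

theorem own_lb : 2 ^ (512 * 140) ≤ ownAll nodes3 * 2 ^ 9351 := by decide +kernel

end H38.ZZ
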