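import Pool.Agent.H38.ZZ.Cov
import Pool.Agent.H38.ZZ.Dall
import Pool.Agent.H38.ZZ.Prod

/-! The inequality in `y ∈ [0, 4]`. -/

namespace H38.ZZ

/-- the scaled inequality -/
def Ineq (n1 n2 n3 n4 n5 N L c2n M : ℕ) (b1 b2 b3 : List ℤ) (ch : List (ℕ × ℕ)) (X : ℝ) : Prop :=
  X ^ n1 * |X - 1048576| ^ (2 * n2) * |evL b1 X| ^ n3 * |evL b2 X| ^ n4 * |evL b3 X| ^ n5
        * (ch.map (nodeR X)).prod * 2 ^ L * 1048576 ^ N ≤
      c2n * (max 1048576 X) ^ N
        * 1048576 ^ (n1 + 2 * n2 + 8 * n3 + 16 * n4 + 6 * n5 + 5 * M)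

theorem nodes_len : nodes.length = 512 := by
  rw [nodes_eq, List.length_map, nodes3_len]

theorem nodes_K : ∀ a ∈ nodes, 1 ≤ a.2 := by
  intro a ha
  rw [nodes_eq, List.mem_map] at ha
  obtain ⟨b, hb, rfl⟩ := ha
  have h := List.all_eq_true.1 nodes3_ok b hb
  unfold nodeOK at h
  simp only [Bool.and_eq_true] at h
  exact Nat.le_of_ble_eq_true h.1.1.2

theorem ckD_sound (hi : ℕ) (l : List (ℕ × ℕ × ℕ × ℕ)) (lo : ℕ) (h : ckD hi l lo = true) :
    ∀ X : ℝ, (lo : ℝ) < X → X ≤ hi → Ineq 2767 2159 59 11 1 12309 8877 805 512 B1 B2 B3 nodes X :=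
  fun X hX hX2 => ckC_sound 2767 2159 59 11 1 12309 8877 805 512 (by norm_num) B1 B2 B3
    (by decide) (by decide) (by decide) nodes nodes_len nodes_K hi l lo h X hX hX2

theorem ineq_zero (n1 n2 n3 n4 n5 N L c2n M : ℕ) (b1 b2 b3 : List ℤ) (ch : List (ℕ × ℕ))
    (h : n1 ≠ 0) : Ineq n1 n2 n3 n4 n5 N L c2n M b1 b2 b3 ch 0 := by
  unfold Ineq
  rw [zero_pow h]
  simp only [zero_mul]
  positivity

theorem cov_step {P : ℝ → Prop} {lo hi top : ℕ} (h : ∀ X : ℝ, (lo : ℝ) < X → X ≤ hi → P X)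
    (h2 : ∀ X : ℝ, (hi : ℝ) < X → X ≤ top → P X) : ∀ X : ℝ, (lo : ℝ) < X → X ≤ top → P X := by
  intro X h3 h4
  by_cases h5 : X ≤ hi
  · exact h X h3 h5
  · exact h2 X (not_le.1 h5) h4

theorem cov_end {P : ℝ → Prop} {top : ℕ} : ∀ X : ℝ, (top : ℝ) < X → X ≤ top → P X := by
  intro X h1 h2
  exact absurd h1 (not_lt.2 h2)

theorem ck_cov : ∀ X : ℝ, ((0 : ℕ) : ℝ) < X → X ≤ (4194304 : ℕ) →
    Ineq 2767 2159 59 11 1 12309 8877 805 512 B1 B2 B3 nodes X := by
  refine cov_step (ckD_sound 218412 l01_1 0 d01_1) ?_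
  refine cov_step (ckD_sound 228356 l01_2 218412 d01_2) ?_
  refine cov_step (ckD_sound 236460 l01_3 228356 d01_3) ?_
  refine cov_step (ckD_sound 243756 l01_4 236460 d01_4) ?_
  refine cov_step (ckD_sound 250552 l01_5 243756 d01_5) ?_
  refine cov_step (ckD_sound 257012 l01_6 250552 d01_6) ?_
  refine cov_step (ckD_sound 263252 l01_7 257012 d01_7) ?_
  refine cov_step (ckD_sound 269304 l01_8 263252 d01_8) ?_
  refine cov_step (ckD_sound 274792 l01_9 269304 d01_9) ?_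
  refine cov_step (ckD_sound 280704 l02_1 274792 d02_1) ?_
  refine cov_step (ckD_sound 286120 l02_2 280704 d02_2) ?_
  refine cov_step (ckD_sound 298964 l02_3 286120 d02_3) ?_
  refine cov_step (ckD_sound 305028 l02_4 298964 d02_4) ?_
  refine cov_step (ckD_sound 310596 l02_5 305028 d02_5) ?_
  refine cov_step (ckD_sound 316060 l02_6 310596 d02_6) ?_
  refine cov_step (ckD_sound 321480 l02_7 316060 d02_7) ?_
  refine cov_step (ckD_sound 326876 l02_8 321480 d02_8) ?_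
  refine cov_step (ckD_sound 331616 l02_9 326876 d02_9) ?_
  refine cov_step (ckD_sound 337016 l03_1 331616 d03_1) ?_
  refine cov_step (ckD_sound 342440 l03_2 337016 d03_2) ?_
  refine cov_step (ckD_sound 347916 l03_3 342440 d03_3) ?_
  refine cov_step (ckD_sound 353464 l03_4 347916 d03_4) ?_
  refine cov_step (ckD_sound 359140 l03_5 353464 d03_5) ?_
  refine cov_step (ckD_sound 365040 l03_6 359140 d03_6) ?_
  refine cov_step (ckD_sound 371344 l03_7 365040 d03_7) ?_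
  refine cov_step (ckD_sound 378728 l03_8 371344 d03_8) ?_
  refine cov_step (ckD_sound 419654 l03_9 378728 d03_9) ?_
  refine cov_step (ckD_sound 429404 l04_1 419654 d04_1) ?_
  refine cov_step (ckD_sound 436180 l04_2 429404 d04_2) ?_
  refine cov_step (ckD_sound 442528 l04_3 436180 d04_3) ?_
  refine cov_step (ckD_sound 448724 l04_4 442528 d04_4) ?_
  refine cov_step (ckD_sound 454876 l04_5 448724 d04_5) ?_
  refine cov_step (ckD_sound 461072 l04_6 454876 d04_6) ?_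
  refine cov_step (ckD_sound 467376 l04_7 461072 d04_7) ?_
  refine cov_step (ckD_sound 473840 l04_8 467376 d04_8) ?_
  refine cov_step (ckD_sound 480000 l04_9 473840 d04_9) ?_
  refine cov_step (ckD_sound 486960 l05_1 480000 d05_1) ?_
  refine cov_step (ckD_sound 494104 l05_2 486960 d05_2) ?_
  refine cov_step (ckD_sound 501216 l05_3 494104 d05_3) ?_
  refine cov_step (ckD_sound 508176 l05_4 501216 d05_4) ?_
  refine cov_step (ckD_sound 514996 l05_5 508176 d05_5) ?_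
  refine cov_step (ckD_sound 521772 l05_6 514996 d05_6) ?_
  refine cov_step (ckD_sound 528560 l05_7 521772 d05_7) ?_
  refine cov_step (ckD_sound 535404 l05_8 528560 d05_8) ?_
  refine cov_step (ckD_sound 541516 l05_9 535404 d05_9) ?_
  refine cov_step (ckD_sound 548612 l06_1 541516 d06_1) ?_
  refine cov_step (ckD_sound 555300 l06_2 548612 d06_2) ?_
  refine cov_step (ckD_sound 562792 l06_3 555300 d06_3) ?_
  refine cov_step (ckD_sound 570616 l06_4 562792 d06_4) ?_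
  refine cov_step (ckD_sound 578820 l06_5 570616 d06_5) ?_
  refine cov_step (ckD_sound 587608 l06_6 578820 d06_6) ?_
  refine cov_step (ckD_sound 597184 l06_7 587608 d06_7) ?_
  refine cov_step (ckD_sound 608248 l06_8 597184 d06_8) ?_
  refine cov_step (ckD_sound 620852 l06_9 608248 d06_9) ?_
  refine cov_step (ckD_sound 876762 l07_1 620852 d07_1) ?_
  refine cov_step (ckD_sound 1812856 l07_2 876762 d07_2) ?_
  refine cov_step (ckD_sound 1858560 l07_3 1812856 d07_3) ?_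
  refine cov_step (ckD_sound 1896276 l07_4 1858560 d07_4) ?_
  refine cov_step (ckD_sound 1932172 l07_5 1896276 d07_5) ?_
  refine cov_step (ckD_sound 1965544 l07_6 1932172 d07_6) ?_
  refine cov_step (ckD_sound 1997496 l07_7 1965544 d07_7) ?_
  refine cov_step (ckD_sound 2028584 l07_8 1997496 d07_8) ?_
  refine cov_step (ckD_sound 2055528 l07_9 2028584 d07_9) ?_
  refine cov_step (ckD_sound 2085932 l08_1 2055528 d08_1) ?_
  refine cov_step (ckD_sound 2116368 l08_2 2085932 d08_2) ?_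
  refine cov_step (ckD_sound 2147228 l08_3 2116368 d08_3) ?_
  refine cov_step (ckD_sound 2179936 l08_4 2147228 d08_4) ?_
  refine cov_step (ckD_sound 2245836 l08_5 2179936 d08_5) ?_
  refine cov_step (ckD_sound 2282980 l08_6 2245836 d08_6) ?_
  refine cov_step (ckD_sound 2315516 l08_7 2282980 d08_7) ?_
  refine cov_step (ckD_sound 2347784 l08_8 2315516 d08_8) ?_
  refine cov_step (ckD_sound 2377752 l08_9 2347784 d08_9) ?_
  refine cov_step (ckD_sound 2410896 l09_1 2377752 d09_1) ?_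
  refine cov_step (ckD_sound 2444920 l09_2 2410896 d09_2) ?_
  refine cov_step (ckD_sound 2480232 l09_3 2444920 d09_3) ?_
  refine cov_step (ckD_sound 2517556 l09_4 2480232 d09_4) ?_
  refine cov_step (ckD_sound 2558852 l09_5 2517556 d09_5) ?_
  refine cov_step (ckD_sound 2618292 l09_6 2558852 d09_6) ?_
  refine cov_step (ckD_sound 2912512 l09_7 2618292 d09_7) ?_
  refine cov_step (ckD_sound 2968896 l09_8 2912512 d09_8) ?_
  refine cov_step (ckD_sound 3013856 l09_9 2968896 d09_9) ?_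
  refine cov_step (ckD_sound 3060800 l10_1 3013856 d10_1) ?_
  refine cov_step (ckD_sound 3107216 l10_2 3060800 d10_2) ?_
  refine cov_step (ckD_sound 3153812 l10_3 3107216 d10_3) ?_
  refine cov_step (ckD_sound 3201140 l10_4 3153812 d10_4) ?_
  refine cov_step (ckD_sound 3249856 l10_5 3201140 d10_5) ?_
  refine cov_step (ckD_sound 3301324 l10_6 3249856 d10_6) ?_
  refine cov_step (ckD_sound 3360072 l10_7 3301324 d10_7) ?_
  refine cov_step (ckD_sound 3435228 l10_8 3360072 d10_8) ?_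
  refine cov_step (ckD_sound 3493176 l10_9 3435228 d10_9) ?_
  refine cov_step (ckD_sound 3549664 l11_1 3493176 d11_1) ?_
  refine cov_step (ckD_sound 3603144 l11_2 3549664 d11_2) ?_
  refine cov_step (ckD_sound 3655516 l11_3 3603144 d11_3) ?_
  refine cov_step (ckD_sound 3707360 l11_4 3655516 d11_4) ?_
  refine cov_step (ckD_sound 3758780 l11_5 3707360 d11_5) ?_
  refine cov_step (ckD_sound 3809700 l11_6 3758780 d11_6) ?_
  refine cov_step (ckD_sound 3859888 l11_7 3809700 d11_7) ?_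
  refine cov_step (ckD_sound 3909016 l11_8 3859888 d11_8) ?_
  refine cov_step (ckD_sound 3952908 l11_9 3909016 d11_9) ?_
  refine cov_step (ckD_sound 3998636 l12_1 3952908 d12_1) ?_
  refine cov_step (ckD_sound 4041648 l12_2 3998636 d12_2) ?_
  refine cov_step (ckD_sound 4081148 l12_3 4041648 d12_3) ?_
  refine cov_step (ckD_sound 4116224 l12_4 4081148 d12_4) ?_
  refine cov_step (ckD_sound 4145904 l12_5 4116224 d12_5) ?_
  refine cov_step (ckD_sound 4169228 l12_6 4145904 d12_6) ?_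
  refine cov_step (ckD_sound 4185320 l12_7 4169228 d12_7) ?_
  refine cov_step (ckD_sound 4193464 l12_8 4185320 d12_8) ?_
  refine cov_step (ckD_sound 4194304 l12_9 4193464 d12_9) ?_
  exact cov_end

theorem ck_all (X : ℝ) (h0 : 0 ≤ X) (h4 : X ≤ 4194304) :
    Ineq 2767 2159 59 11 1 12309 8877 805 512 B1 B2 B3 nodes X := by
  rcases h0.eq_or_lt with h | h
  · rw [← h]
    exact ineq_zero _ _ _ _ _ _ _ _ _ _ _ _ _ (by norm_num)
  · exact ck_cov X (by simpa using h) (by exact_mod_cast h4)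

/-- removing the scale -/
theorem descale (n1 n2 n3 n4 n5 N L c2n M : ℕ) (s y a b c P : ℝ) (hs : 0 < s)
    (h : (s * y) ^ n1 * |s * y - s| ^ (2 * n2) * |s ^ 8 * a| ^ n3 * |s ^ 16 * b| ^ n4
        * |s ^ 6 * c| ^ n5 * (s ^ (5 * M) * P) * 2 ^ L * s ^ N ≤
      c2n * (max s (s * y)) ^ N * s ^ (n1 + 2 * n2 + 8 * n3 + 16 * n4 + 6 * n5 + 5 * M)) :
    y ^ n1 * |1 - y| ^ (2 * n2) * |a| ^ n3 * |b| ^ n4 * |c| ^ n5 * P ≤
      c2n / 2 ^ L * (max 1 y) ^ N := by
  have e1 : |s * y - s| = s * |1 - y| := by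
    rw [show s * y - s = -(s * (1 - y)) by ring, abs_neg, abs_mul, abs_of_pos hs]
  have e2 : max s (s * y) = s * max 1 y := by
    rw [mul_max_of_nonneg _ _ hs.le, mul_one]
  have e3 : |s ^ 8 * a| = s ^ 8 * |a| := by rw [abs_mul, abs_of_pos (by positivity)]
  have e4 : |s ^ 16 * b| = s ^ 16 * |b| := by rw [abs_mul, abs_of_pos (by positivity)]
  have e5 : |s ^ 6 * c| = s ^ 6 * |c| := by rw [abs_mul, abs_of_pos (by positivity)]
  rw [e1, e2, e3, e4, e5] at h
  have h2 : (s ^ N * s ^ (n1 + 2 * n2 + 8 * n3 + 16 * n4 + 6 * n5 + 5 * M)) *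
      (y ^ n1 * |1 - y| ^ (2 * n2) * |a| ^ n3 * |b| ^ n4 * |c| ^ n5 * P * 2 ^ L) ≤
      (s ^ N * s ^ (n1 + 2 * n2 + 8 * n3 + 16 * n4 + 6 * n5 + 5 * M)) *
      (c2n * (max 1 y) ^ N) := by
    calc _ = (s * y) ^ n1 * (s * |1 - y|) ^ (2 * n2) * (s ^ 8 * |a|) ^ n3 * (s ^ 16 * |b|) ^ n4
        * (s ^ 6 * |c|) ^ n5 * (s ^ (5 * M) * P) * 2 ^ L * s ^ N := by
          simp only [mul_pow, pow_add, pow_mul]; ring
      _ ≤ _ := h
      _ = _ := by simp only [mul_pow]; ring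
  have h3 := le_of_mul_le_mul_left h2 (by positivity)
  rw [div_mul_eq_mul_div, le_div_iff₀ (by positivity)]
  exact h3

theorem nodeR_scale (y : ℝ) (a : ℕ × ℕ) :
    nodeR (1048576 * y) a = 1048576 ^ 5 * ((max |y - a.1 / 1048576| (a.2 / 1048576)) ^ 2 *
      (1 + y * (a.1 / 1048576) * (y + a.1 / 1048576 - 3) + (a.2 / 1048576) ^ 2)) := by
  unfold nodeR
  have e1 : |1048576 * y - (a.1 : ℝ)| = 1048576 * |y - a.1 / 1048576| := by
    rw [show 1048576 * y - (a.1 : ℝ) = 1048576 * (y - a.1 / 1048576) by ring, abs_mul,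
      abs_of_pos (by norm_num : (0 : ℝ) < 1048576)]
  have e2 : max |1048576 * y - (a.1 : ℝ)| (a.2 : ℝ)
      = 1048576 * max |y - a.1 / 1048576| (a.2 / 1048576) := by
    rw [mul_max_of_nonneg _ _ (by norm_num : (0 : ℝ) ≤ 1048576), e1]
    congr 1
    ring
  rw [e2]
  ring

theorem nodes_scale (y : ℝ) (ch : List (ℕ × ℕ)) :
    (ch.map (nodeR (1048576 * y))).prod = 1048576 ^ (5 * ch.length) *
      (ch.map (fun a : ℕ × ℕ => (max |y - a.1 / 1048576| ((a.2 : ℝ) / 1048576)) ^ 2 *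
      (1 + y * (a.1 / 1048576) * (y + a.1 / 1048576 - 3) + ((a.2 : ℝ) / 1048576) ^ 2))).prod := by
  induction ch with
  | nil => simp
  | cons a ch ih =>
    rw [List.map_cons, List.prod_cons, List.map_cons, List.prod_cons, ih, nodeR_scale,
      List.length_cons, show 5 * (ch.length + 1) = 5 * ch.length + 5 by ring,
      pow_add (1048576 : ℝ) (5 * ch.length) 5]
    ring

theorem ev1 (y : ℝ) : evL B1 (1048576 * y) = 1048576 ^ 8 *
    (1 - 8 * y + 27 * y ^ 2 - 55 * y ^ 3 + 76 * y ^ 4 - 65 * y ^ 5 + 33 * y ^ 6 - 9 * y ^ 7 +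
        y ^ 8) := by
  simp only [B1, evL]
  push_cast
  ring

theorem ev2 (y : ℝ) : evL B2 (1048576 * y) = 1048576 ^ 16 *
    (1 - 16 * y + 113 * y ^ 2 - 480 * y ^ 3 + 1428 * y ^ 4 - 3283 * y ^ 5 + 6158 * y ^ 6 -
        9546 * y ^ 7 + 12042 * y ^ 8 - 12029 * y ^ 9 + 9276 * y ^ 10 - 5402 * y ^ 11 + 2320 * y
        ^ 12 - 710 * y ^ 13 + 146 * y ^ 14 - 18 * y ^ 15 + y ^ 16) := by
  simp only [B2, evL]
  push_cast
  ring

theorem ev3 (y : ℝ) : evL B3 (1048576 * y) = 1048576 ^ 6 *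
    (1 - 4 * y + y ^ 2 + 12 * y ^ 3 - 15 * y ^ 4 + 7 * y ^ 5 - y ^ 6) := by
  simp only [B3, evL]
  push_cast
  ring

/-- the inequality on `[0, 4]`, nodes `(Y, r, K)` -/
theorem y_ineq (y : ℝ) (h0 : 0 ≤ y) (h4 : y ≤ 4) :
    y ^ 2767 * |1 - y| ^ (2 * 2159) *
      |1 - 8 * y + 27 * y ^ 2 - 55 * y ^ 3 + 76 * y ^ 4 - 65 * y ^ 5 + 33 * y ^ 6 - 9 * y ^ 7 +
        y ^ 8| ^ 59 *
      |1 - 16 * y + 113 * y ^ 2 - 480 * y ^ 3 + 1428 * y ^ 4 - 3283 * y ^ 5 + 6158 * y ^ 6 -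
        9546 * y ^ 7 + 12042 * y ^ 8 - 12029 * y ^ 9 + 9276 * y ^ 10 - 5402 * y ^ 11 + 2320 * y
        ^ 12 - 710 * y ^ 13 + 146 * y ^ 14 - 18 * y ^ 15 + y ^ 16| ^ 11 *
      |1 - 4 * y + y ^ 2 + 12 * y ^ 3 - 15 * y ^ 4 + 7 * y ^ 5 - y ^ 6| ^ 1 *
      (nodes3.map (fun a : ℕ × ℕ × ℕ => (max |y - a.1 / 1048576| ((a.2.2 : ℝ) / 1048576)) ^ 2 *
      (1 + y * (a.1 / 1048576) * (y + a.1 / 1048576 - 3) + ((a.2.2 : ℝ) / 1048576) ^ 2))).prod ≤
      (805 : ℕ) / 2 ^ 8877 * (max 1 y) ^ 12309 := by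
  have h := ck_all (1048576 * y) (by positivity) (by linarith)
  unfold Ineq at h
  rw [ev1, ev2, ev3, nodes_scale, nodes_len] at h
  have h2 := descale 2767 2159 59 11 1 12309 8877 805 512 1048576 y _ _ _ _ (by norm_num) h
  rw [nodes_eq, List.map_map] at h2
  exact h2

end H38.ZZ
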